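import Mathlib

set_option autoImplicit false

namespace Pool.Agent.Q133.SS

open Matrix

/-- A square matrix over the nonnegative integers, of any finite size. -/
abbrev SqMat := Σ n : ℕ, Matrix (Fin n) (Fin n) ℕ

/-- Elementary strong shift equivalence over the nonnegative integers: `A = R S` and `B = S R`. -/
def Elem (X Y : SqMat) : Prop :=
  ∃ R : Matrix (Fin X.1) (Fin Y.1) ℕ, ∃ S : Matrix (Fin Y.1) (Fin X.1) ℕ,
    X.2 = R * S ∧ Y.2 = S * R

/-- Strong shift equivalence over the nonnegative integers: a finite chain of elementary ones. -/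
def SSE (X Y : SqMat) : Prop := Relation.TransGen Elem X Y

theorem Elem.symm {X Y : SqMat} (h : Elem X Y) : Elem Y X := by
  obtain ⟨R, S, h1, h2⟩ := h
  exact ⟨S, R, h2, h1⟩

theorem Elem.refl (X : SqMat) : Elem X X := ⟨X.2, 1, by simp, by simp⟩

theorem SSE.refl (X : SqMat) : SSE X X := Relation.TransGen.single (Elem.refl X)

theorem SSE.trans {X Y Z : SqMat} (h : SSE X Y) (h' : SSE Y Z) : SSE X Z :=
  Relation.TransGen.trans h h'

theorem SSE.symm {X Y : SqMat} (h : SSE X Y) : SSE Y X := by
  unfold SSE at *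
  induction h with
  | single h => exact Relation.TransGen.single h.symm
  | tail _ h ih => exact Relation.TransGen.trans (Relation.TransGen.single h.symm) ih

/-- entry of a list of rows -/
def nth {α : Type} : List α → ℕ → α → α
  | [], _, d => d
  | a :: _, 0, _ => a
  | _ :: l, n + 1, d => nth l n d

abbrev LL := List (List ℕ)

def ent (M : LL) (i j : ℕ) : ℕ := nth (nth M i []) j 0

def toM (n m : ℕ) (M : LL) : Matrix (Fin n) (Fin m) ℕ := fun i j => ent M i j

def sumTo : ℕ → (ℕ → ℕ) → ℕ
  | 0, _ => 0
  | n + 1, f => sumTo n f + f n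

theorem sumTo_eq (n : ℕ) (f : ℕ → ℕ) : sumTo n f = ∑ i : Fin n, f i := by
  induction n with
  | zero => simp [sumTo]
  | succ n ih => simp [sumTo, ih, Fin.sum_univ_castSucc]

def allTo : ℕ → (ℕ → Bool) → Bool
  | 0, _ => true
  | n + 1, f => f n && allTo n f

theorem allTo_spec (n : ℕ) (f : ℕ → Bool) (h : allTo n f = true) : ∀ i < n, f i = true := by
  induction n with
  | zero => intro i hi; omega
  | succ n ih =>
    simp only [allTo, Bool.and_eq_true] at h
    intro i hi
    rcases Nat.lt_succ_iff_lt_or_eq.mp hi with h1 | h1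
    · exact ih h.2 i h1
    · rw [h1]; exact h.1

/-- `A` (size `n`) equals `R` (`n` by `m`) times `S` (`m` by `n`) -/
def mulOK (n m : ℕ) (R S A : LL) : Bool :=
  allTo n fun i => allTo n fun j => Nat.beq (sumTo m fun l => ent R i l * ent S l j) (ent A i j)

theorem mulOK_spec {n m : ℕ} {R S A : LL} (h : mulOK n m R S A = true) :
    toM n n A = toM n m R * toM m n S := by
  ext i j
  have h1 := allTo_spec n _ h i i.2
  have h2 := allTo_spec n _ h1 j j.2
  have h3 := Nat.eq_of_beq_eq_true h2
  rw [sumTo_eq] at h3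
  simp only [toM, Matrix.mul_apply]
  exact h3.symm

/-- one step of a chain: new size, `R`, `S`, new matrix -/
structure Step where
  m : ℕ
  R : LL
  S : LL
  B : LL

def chainOK : ℕ → LL → List Step → ℕ → LL → Bool
  | n, A, [], n', A' => Nat.beq n n' && allTo n fun i => allTo n fun j => Nat.beq (ent A i j) (ent A' i j)
  | n, A, s :: t, n', A' =>
    mulOK n s.m s.R s.S A && mulOK s.m n s.S s.R s.B && chainOK s.m s.B t n' A'

theorem chainOK_spec {n : ℕ} {A : LL} {l : List Step} {n' : ℕ} {A' : LL}
    (h : chainOK n A l n' A' = true) : SSE ⟨n, toM n n A⟩ ⟨n', toM n' n' A'⟩ := by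
  induction l generalizing n A with
  | nil =>
    simp only [chainOK, Bool.and_eq_true] at h
    obtain ⟨h1, h2⟩ := h
    have h3 := Nat.eq_of_beq_eq_true h1
    subst h3
    have : toM n n A = toM n n A' := by
      ext i j
      have h4 := allTo_spec n _ h2 i i.2
      have h5 := allTo_spec n _ h4 j j.2
      exact Nat.eq_of_beq_eq_true h5
    rw [this]
    exact SSE.refl _
  | cons s t ih =>
    simp only [chainOK, Bool.and_eq_true] at h
    obtain ⟨⟨h1, h2⟩, h3⟩ := h
    refine SSE.trans (Relation.TransGen.single ?_) (ih h3)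
    exact ⟨toM n s.m s.R, toM s.m n s.S, mulOK_spec h1, mulOK_spec h2⟩

end Pool.Agent.Q133.SS
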