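import Pool.Agent.Q133.SS.Cond

set_option autoImplicit false

namespace Pool.Agent.Q133.SS

open Matrix

theorem tZ_C2 (p q s u : ℤ) : tZ (C2 p q s u) = C2 p s q u := by
  simp only [tZ, C2]
  congr 1
  ext a b
  fin_cases a <;> fin_cases b <;> rfl

theorem EZ22 {a b c d e f g h p q s u p' q' s' u' : ℤ}
    (h1 : 0 ≤ a) (h2 : 0 ≤ b) (h3 : 0 ≤ c) (h4 : 0 ≤ d) (h5 : 0 ≤ e) (h6 : 0 ≤ f) (h7 : 0 ≤ g)
    (h8 : 0 ≤ h) (e1 : p = a * e + b * g) (e2 : q = a * f + b * h) (e3 : s = c * e + d * g)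
    (e4 : u = c * f + d * h) (f1 : p' = e * a + f * c) (f2 : q' = e * b + f * d)
    (f3 : s' = g * a + h * c) (f4 : u' = g * b + h * d) :
    EZ (C2 p q s u) (C2 p' q' s' u') := by
  refine ⟨!![a, b; c, d], !![e, f; g, h], ?_, ?_, ?_, ?_⟩
  · intro i j; fin_cases i <;> fin_cases j <;> assumption
  · intro i j; fin_cases i <;> fin_cases j <;> assumption
  · show (!![p, q; s, u] : Matrix (Fin 2) (Fin 2) ℤ) = !![a, b; c, d] * !![e, f; g, h]
    rw [Matrix.mul_fin_two, e1, e2, e3, e4]
  · show (!![p', q'; s', u'] : Matrix (Fin 2) (Fin 2) ℤ) = !![e, f; g, h] * !![a, b; c, d]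
    rw [Matrix.mul_fin_two, f1, f2, f3, f4]

theorem swapC {p q s u : ℤ} (hp : 0 ≤ p) (hq : 0 ≤ q) (hs : 0 ≤ s) (hu : 0 ≤ u) :
    SZ (C2 p q s u) (C2 u s q p) :=
  (EZ22 (a := q) (b := p) (c := u) (d := s) (e := 0) (f := 1) (g := 1) (h := 0)
    hq hp hu hs le_rfl zero_le_one zero_le_one le_rfl (by ring) (by ring) (by ring) (by ring)
    (by ring) (by ring) (by ring) (by ring)).sz

theorem five {h c r g : ℤ} (hc : 0 < c) (hr : 0 < r) (hg : 0 < g) (hgh : g ≤ h)
    (H : 4 * (g * h + r * c) ≤ (h - g) ^ 2) : 5 * g + 1 ≤ h := by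
  by_contra hh
  push Not at hh
  have p1 : 0 ≤ (h - g) * (5 * g - h) := mul_nonneg (by linarith) (by linarith)
  have p2 : 0 < r * c := mul_pos hr hc
  nlinarith

theorem bridge1_aux {h c r g : ℤ} (i k : ℕ) (hc : 0 < c) (hr : 0 < r) (hg : 0 < g)
    (hi : 1 ≤ i) (hi1 : ((i : ℤ) - 1) * c < g) (hi2 : g ≤ i * c) (hi3 : i * c ≤ h)
    (hk : 1 ≤ k) (hk1 : ((k : ℤ) - 1) * r < g) (hk2 : g ≤ k * r) (hk3 : k * r ≤ h)
    (hgh : g ≤ h) (H : 4 * (g * h + r * c) ≤ (h - g) ^ 2) (hcr : c ≤ r) :
    SZ (C2 (h - i * c) c (r + i * (h + g) - (i : ℤ) ^ 2 * c) (i * c - g))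
      (C2 (h - k * r) (c + k * (h + g) - (k : ℤ) ^ 2 * r) r (k * r - g)) := by
  have h5 := five hc hr hg hgh H
  have hiz : (1 : ℤ) ≤ i := by exact_mod_cast hi
  have hkz : (1 : ℤ) ≤ k := by exact_mod_cast hk
  have hG3 : 0 ≤ r + i * (h + g) - (i : ℤ) ^ 2 * c := by
    have : 0 ≤ (i : ℤ) * (h + g - i * c) := mul_nonneg (by linarith) (by linarith)
    nlinarith
  have hG3' : 0 ≤ c + k * (h + g) - (k : ℤ) ^ 2 * r := by
    have : 0 ≤ (k : ℤ) * (h + g - k * r) := mul_nonneg (by linarith) (by linarith)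
    nlinarith
  rcases Nat.lt_or_ge 1 k with hk4 | hk4
  · have hk5 : (2 : ℤ) ≤ k := by exact_mod_cast hk4
    have hrg : r < g := by nlinarith
    have a1 := AplusPos (h := h) (c := c) (r := r) (g := g) i hi hc hg hr.le hi1 hi2
      (by linarith) hG3 (by linarith) (by linarith) (fun _ => ⟨by linarith, by linarith⟩)
    have a2 := AplusPos (h := h) (c := r) (r := c) (g := g) k hk hr hg hc.le hk1 hk2
      (by linarith) hG3' (by linarith) (by linarith) (fun _ => ⟨by linarith, by linarith⟩)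
    have a3 := bridgeB (h := h) (c := c) (r := r) (g := g) hc.le hg.le hr.le (by linarith)
      (by linarith) (by linarith)
    have a4 := a2.tr
    rw [tZ_C2] at a4
    exact a1.trans (a3.trans a4.symm)
  · have hk1' : k = 1 := by omega
    subst hk1'
    have e1 : ((1 : ℕ) : ℤ) = 1 := Nat.cast_one
    rw [e1] at hk1 hk2 hk3 hG3' ⊢
    rw [one_mul] at hk2 hk3
    by_cases hcase : (i = 1 ∧ r + g + c ≤ h) ∨ (2 ≤ i ∧ r + 2 * g + 2 * c ≤ h)
    · have hrgc : r + g + c ≤ h := by rcases hcase with h1 | h1 <;> linarith [h1.2]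
      have a1 := AplusPos (h := h) (c := c) (r := r) (g := g) i hi hc hg hr.le hi1 hi2
        (by linarith) hG3 hrgc (by linarith) (fun h2 => by
          rcases hcase with h1 | h1
          · omega
          · exact ⟨h1.2, by linarith⟩)
      have a2 := endOne (h := h) (c := c) (r := r) (g := g) hc.le hg.le hk2 hrgc
      have e : C2 (h - r) (h - r + g + c) r (r - g) =
          C2 (h - 1 * r) (c + 1 * (h + g) - 1 ^ 2 * r) r (1 * r - g) := by
        congr 1 <;> ring
      rw [e] at a2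
      exact a1.trans a2
    · have key : 5 * g + 2 * c ≤ h ∧ 3 * g ≤ r := by
        rcases Nat.lt_or_ge 1 i with hi4 | hi4
        · have hi5 : (2 : ℤ) ≤ i := by exact_mod_cast hi4
          have hcg : c < g := by nlinarith
          have hnot : h < r + 2 * g + 2 * c := by
            by_contra hh
            exact hcase (Or.inr ⟨hi4, by linarith⟩)
          have h52 : 5 * g + 2 * c ≤ h := by
            by_contra hh
            push Not at hh
            have p1 : 0 ≤ (h - 5 * g) * (5 * g + 2 * c - h) :=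
              mul_nonneg (by linarith) (by linarith)
            have p2 : 0 ≤ (4 * g - 2 * c) * (5 * g + 2 * c - h) :=
              mul_nonneg (by linarith) (by linarith)
            have p3 : 0 ≤ c * (r - (h - 2 * g - 2 * c)) := mul_nonneg hc.le (by linarith)
            have p4 : 0 < g * (g - c) := mul_pos hg (by linarith)
            have p5 : 0 < c * (g - c) := mul_pos hc (by linarith)
            have p6 : 0 < c * c := mul_pos hc hc
            nlinarith
          exact ⟨h52, by linarith⟩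
        · have hi1' : i = 1 := by omega
          subst hi1'
          rw [e1, one_mul] at hi2
          have hnot : h < r + g + c := by
            by_contra hh
            exact hcase (Or.inl ⟨rfl, by linarith⟩)
          have h52 : 5 * g + 2 * c ≤ h := by
            by_contra hh
            push Not at hh
            rcases le_or_gt (h - g) (2 * c) with hw | hw
            · have p1 : 0 ≤ c * (r - c) := mul_nonneg hc.le (by linarith)
              have p2 : 0 ≤ (2 * c - (h - g)) * (2 * c + (h - g)) :=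
                mul_nonneg (by linarith) (by linarith)
              have p3 : 0 < g * h := mul_pos hg (by linarith)
              nlinarith
            · have p1 : 0 ≤ c * (r - (h - g - c)) := mul_nonneg hc.le (by linarith)
              have p2 : 0 ≤ (4 * g - (h - g - 2 * c)) * (4 * g + (h - g - 2 * c)) :=
                mul_nonneg (by linarith) (by linarith)
              have p3 : 0 < g * (h - 4 * g) := mul_pos hg (by linarith)
              nlinarith
          exact ⟨h52, by linarith⟩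
      obtain ⟨h52, h3g⟩ := key
      have ejc : (((i + 1 : ℕ) : ℤ)) = (i : ℤ) + 1 := by push_cast; ring
      have eG3 : -(h + g + c - r) + ((i + 1 : ℕ) : ℤ) * ((h + c) + (g + c)) -
          ((i + 1 : ℕ) : ℤ) ^ 2 * c = r + i * (h + g) - (i : ℤ) ^ 2 * c := by
        rw [ejc]; ring
      have a1 := Aminus (h := h + c) (c := c) (r := -(h + g + c - r)) (g := g + c) (i + 1)
        (by omega) hc (by linarith) (by linarith) (by rw [ejc]; linarith)
        (by rw [ejc]; linarith) (by rw [eG3]; exact hG3)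
        (by
          intro X hX hXi
          have hXz : (1 : ℤ) ≤ X := by exact_mod_cast hX
          have hXi' : (X : ℤ) ≤ i := by
            have : (X : ℤ) + 1 ≤ (i : ℤ) + 1 := by exact_mod_cast hXi
            linarith
          refine condRec hc hXz ?_ (by linarith) (by linarith) (by linarith)
          nlinarith)
        (by
          rw [ejc]
          have : 0 ≤ ((i : ℤ) + 1) * (h - i * c - g - c) :=
            mul_nonneg (by linarith) (by linarith)
          linarith)
      rw [eG3, ejc] at a1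
      have a2 := endRec (h := h + c) (c := c) (r := h + g + c - r) (g := g + c) hc.le
        (by linarith) (by linarith) (by linarith) (by linarith)
      have e : C2 (h + g + c - r - (g + c)) (h + g + c - r)
          (h + c - (h + g + c - r) - c + (g + c)) (h + c - (h + g + c - r)) =
          C2 (h - 1 * r) (c + 1 * (h + g) - 1 ^ 2 * r) r (1 * r - g) := by
        congr 1 <;> ring
      have e' : C2 (h + c - ((i : ℤ) + 1) * c) c (r + i * (h + g) - (i : ℤ) ^ 2 * c)
          (((i : ℤ) + 1) * c - (g + c)) =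
          C2 (h - i * c) c (r + i * (h + g) - (i : ℤ) ^ 2 * c) (i * c - g) := by
        congr 1 <;> ring
      rw [e] at a2
      rw [e'] at a1
      exact a1.trans a2

theorem bridge1 {h c r g : ℤ} (i k : ℕ) (hc : 0 < c) (hr : 0 < r) (hg : 0 < g)
    (hi : 1 ≤ i) (hi1 : ((i : ℤ) - 1) * c < g) (hi2 : g ≤ i * c) (hi3 : i * c ≤ h)
    (hk : 1 ≤ k) (hk1 : ((k : ℤ) - 1) * r < g) (hk2 : g ≤ k * r) (hk3 : k * r ≤ h)
    (hgh : g ≤ h) (H : 4 * (g * h + r * c) ≤ (h - g) ^ 2) :
    SZ (C2 (h - i * c) c (r + i * (h + g) - (i : ℤ) ^ 2 * c) (i * c - g))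
      (C2 (h - k * r) (c + k * (h + g) - (k : ℤ) ^ 2 * r) r (k * r - g)) := by
  rcases le_total c r with hcr | hcr
  · exact bridge1_aux i k hc hr hg hi hi1 hi2 hi3 hk hk1 hk2 hk3 hgh H hcr
  · have := bridge1_aux k i hr hc hg hk hk1 hk2 hk3 hi hi1 hi2 hi3 hgh
      (by rw [mul_comm c r]; exact H) hcr
    have h2 := this.tr.symm
    rw [tZ_C2, tZ_C2] at h2
    exact h2

theorem bridge2 {h c r g c2 : ℤ} (i k : ℕ) (hc : 0 < c) (hg : 0 < g) (hrh : h < r)
    (hc2 : c2 = g + h + c - r) (hc2p : 0 < c2)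
    (hi : 1 ≤ i) (hi1 : ((i : ℤ) - 1) * c < g) (hi2 : g ≤ i * c) (hi3 : i * c ≤ h)
    (hk : 1 ≤ k) (hk1 : ((k : ℤ) - 1) * c2 < r - h) (hk2 : r - h ≤ k * c2)
    (hgh : g ≤ h) (H : 4 * (g * h + r * c) ≤ (h - g) ^ 2) :
    SZ (C2 (h - i * c) c (r + i * (h + g) - (i : ℤ) ^ 2 * c) (i * c - g))
      (C2 (h - r + k * c2) c2 (r + k * (2 * r - g - h) - (k : ℤ) ^ 2 * c2) (r - g - k * c2)) := by
  have h5 := five hc (by linarith) hg hgh H
  have hiz : (1 : ℤ) ≤ i := by exact_mod_cast hi
  have hkz : (1 : ℤ) ≤ k := by exact_mod_cast hk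
  have h44 : 4 * g + 4 * c ≤ h := by
    by_contra hh
    push Not at hh
    have p1 : 0 ≤ h * (4 * g + 4 * c - h) := mul_nonneg (by linarith) (by linarith)
    have p2 : 0 ≤ c * (r - h) := mul_nonneg hc.le (by linarith)
    have p3 : 0 < g * (2 * h - g) := mul_pos hg (by linarith)
    nlinarith
  have hG3 : 0 ≤ r + i * (h + g) - (i : ℤ) ^ 2 * c := by
    have : 0 ≤ (i : ℤ) * (h + g - i * c) := mul_nonneg (by linarith) (by linarith)
    nlinarith
  have ejc : (((i + 1 : ℕ) : ℤ)) = (i : ℤ) + 1 := by push_cast; ring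
  have ekc : (((k + 1 : ℕ) : ℤ)) = (k : ℤ) + 1 := by push_cast; ring
  have eG3 : -c2 + ((i + 1 : ℕ) : ℤ) * ((h + c) + (g + c)) -
      ((i + 1 : ℕ) : ℤ) ^ 2 * c = r + i * (h + g) - (i : ℤ) ^ 2 * c := by
    rw [ejc, hc2]; ring
  have hkc : ((k : ℤ) + 1) * c2 < g + c + c2 := by
    have : ((k : ℤ) - 1) * c2 + 2 * c2 < r - h + 2 * c2 := by linarith
    have e : ((k : ℤ) + 1) * c2 = ((k : ℤ) - 1) * c2 + 2 * c2 := by ring
    rw [e]; linarith
  have hG3k : 0 ≤ -c + ((k : ℤ) + 1) * ((h + c) + (g + c)) - ((k : ℤ) + 1) ^ 2 * c2 := by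
    have : 0 ≤ (k : ℤ) * ((h + c) + (g + c) - ((k : ℤ) + 1) * c2) :=
      mul_nonneg (by linarith) (by linarith)
    nlinarith
  have a1 := AplusNeg (h := h + c) (c := c) (r := c2) (g := g + c) (i + 1) (by omega) hc
    (by linarith) hc2p.le (by linarith) (by linarith) (by rw [ejc]; linarith)
    (by rw [ejc]; linarith) (by rw [ejc]; linarith) (by rw [eG3]; exact hG3)
    (by linarith) (by linarith)
  rw [eG3, ejc] at a1
  have a2 := bridgeB' (h := h + c) (c := c) (r := c2) (g := g + c) hc.le (by linarith) hc2p.le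
    (by linarith)
  have a3 := AplusNeg (h := h + c) (c := c2) (r := c) (g := g + c) (k + 1) (by omega) hc2p
    (by linarith) hc.le (by linarith) (by linarith) (by rw [ekc]; linarith)
    (by rw [ekc]; linarith) (by rw [ekc]; linarith) (by rw [ekc]; exact hG3k)
    (by linarith) (by linarith)
  rw [ekc] at a3
  have a4 := a3.tr
  rw [tZ_C2] at a4
  have a5 := swapC (p := h + c - ((k : ℤ) + 1) * c2)
    (q := -c + ((k : ℤ) + 1) * ((h + c) + (g + c)) - ((k : ℤ) + 1) ^ 2 * c2) (s := c2)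
    (u := ((k : ℤ) + 1) * c2 - (g + c)) (by linarith) hG3k hc2p.le (by linarith)
  have e : C2 (((k : ℤ) + 1) * c2 - (g + c)) c2
      (-c + ((k : ℤ) + 1) * ((h + c) + (g + c)) - ((k : ℤ) + 1) ^ 2 * c2)
      (h + c - ((k : ℤ) + 1) * c2) =
      C2 (h - r + k * c2) c2 (r + k * (2 * r - g - h) - (k : ℤ) ^ 2 * c2) (r - g - k * c2) := by
    rw [hc2]
    congr 1 <;> ring
  rw [e] at a5
  have e' : C2 (h + c - ((i : ℤ) + 1) * c) c (r + i * (h + g) - (i : ℤ) ^ 2 * c)
      (((i : ℤ) + 1) * c - (g + c)) =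
      C2 (h - i * c) c (r + i * (h + g) - (i : ℤ) ^ 2 * c) (i * c - g) := by
    congr 1 <;> ring
  rw [e'] at a1
  exact a1.trans (a2.trans (a4.symm.trans a5))

end Pool.Agent.Q133.SS
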