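import Pool.Agent.Q133.SS.Bridge

set_option autoImplicit false

namespace Pool.Agent.Q133.SS

open Matrix

/-- the matrix `[[p, q], [s, u]]` -/
structure Q4 where
  p : ℤ
  q : ℤ
  s : ℤ
  u : ℤ

namespace Q4

def L (a : Q4) : Q4 := ⟨a.p + a.q, a.q, a.s + a.u - a.p - a.q, a.u - a.q⟩
def R (a : Q4) : Q4 := ⟨a.p - a.s, a.p + a.q - a.s - a.u, a.s, a.s + a.u⟩
def sw (a : Q4) : Q4 := ⟨a.u, a.s, a.q, a.p⟩
def C (a : Q4) : SqZ := C2 a.p a.q a.s a.u
def Good (a : Q4) : Prop := 0 ≤ a.p ∧ 0 ≤ a.u ∧ 0 < a.q ∧ 0 < a.s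
def Reg (a : Q4) : Prop :=
  0 < a.q * a.s - a.p * a.u ∧ 4 * (a.q * a.s - a.p * a.u) ≤ (a.p + a.u) ^ 2

theorem sw_sw (a : Q4) : a.sw.sw = a := rfl

theorem L_sw (a : Q4) : a.L.sw = a.sw.R := by
  simp only [L, sw, R, mk.injEq]
  refine ⟨trivial, ?_, trivial, ?_⟩ <;> ring

theorem R_sw (a : Q4) : a.R.sw = a.sw.L := by
  simp only [L, sw, R, mk.injEq]
  refine ⟨?_, trivial, ?_, trivial⟩ <;> ring

theorem Good.sw {a : Q4} (h : a.Good) : a.sw.Good := ⟨h.2.1, h.1, h.2.2.2, h.2.2.1⟩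

theorem Reg.sw {a : Q4} (h : a.Reg) : a.sw.Reg := by
  obtain ⟨h1, h2⟩ := h
  constructor
  · simp only [Q4.sw]; nlinarith
  · simp only [Q4.sw]; nlinarith

theorem Good.swC {a : Q4} (h : a.Good) : SZ a.C a.sw.C :=
  swapC h.1 h.2.2.1.le h.2.2.2.le h.2.1

end Q4

inductive Reach (b : Q4) : ℕ → Q4 → Prop
  | refl : Reach b 0 b
  | L {n : ℕ} {a : Q4} : 0 < a.L.s → Reach b n a.L → Reach b (n + 1) a
  | R {n : ℕ} {a : Q4} : 0 < a.R.q → Reach b n a.R → Reach b (n + 1) a

theorem Reach.sw {b : Q4} {n : ℕ} {a : Q4} (h : Reach b n a) : Reach b.sw n a.sw := by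
  induction h with
  | refl => exact Reach.refl
  | @L n a h1 _ ih =>
    rw [Q4.L_sw] at ih
    refine Reach.R ?_ ih
    rw [← Q4.L_sw]
    exact h1
  | @R n a h1 _ ih =>
    rw [Q4.R_sw] at ih
    refine Reach.L ?_ ih
    rw [← Q4.R_sw]
    exact h1

theorem good_step {a : Q4} (ha : a.Good) (hr : a.Reg) (h1 : 0 < a.L.s) (h2 : 0 ≤ a.L.u) :
    SZ a.C a.L.C ∧ a.L.Good ∧ a.L.Reg := by
  obtain ⟨hp, hu, hq, hs⟩ := ha
  obtain ⟨r1, r2⟩ := hr
  obtain ⟨p, q, s, u⟩ := a
  simp only [Q4.L, Q4.C, Q4.Good, Q4.Reg] at *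
  have hsp : p ≤ s := by
    by_contra hh
    push Not at hh
    have : 0 ≤ (p - s) * u := mul_nonneg (by linarith) hu
    have : 0 ≤ s * (u - q) := mul_nonneg hs.le h2
    nlinarith
  refine ⟨?_, ⟨by linarith, by linarith, hq, h1⟩, ?_, ?_⟩
  · exact (EZ22 (a := 1) (b := 0) (c := 1) (d := 1) (e := p) (f := q) (g := s - p) (h := u - q)
      zero_le_one le_rfl zero_le_one zero_le_one hp hq.le (by linarith) h2 (by ring) (by ring)
      (by ring) (by ring) (by ring) (by ring) (by ring) (by ring)).sz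
  · nlinarith
  · nlinarith

/-- the induction hypothesis -/
def IHyp (b : Q4) (N : ℕ) : Prop :=
  ∀ m < N, ∀ a : Q4, a.Good → a.Reg → Reach b m a → SZ a.C b.C

section gap

variable {b : Q4} {N : ℕ} (hb : b.Good) (IH : IHyp b N)
  {h c r g : ℤ} {i : ℕ} (hc : 0 < c) (hr : 0 < r) (hg : 0 < g) (hi : 1 ≤ i)
  (hi1 : ((i : ℤ) - 1) * c < g) (hi2 : g ≤ i * c) (hi3 : i * c ≤ h) (hgh : g ≤ h)
  (H : 4 * (g * h + r * c) ≤ (h - g) ^ 2)
include hb IH hc hr hg hi hi1 hi2 hi3 hgh H

theorem run2 : ∀ m < N, ∀ l : ℕ, 1 ≤ l → l * r < g →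
    Reach b m ⟨h - l * r, c + l * (h + g) - (l : ℤ) ^ 2 * r, r, l * r - g⟩ →
    SZ (C2 (h - i * c) c (r + i * (h + g) - (i : ℤ) ^ 2 * c) (i * c - g)) b.C := by
  have h5 := five hc hr hg hgh H
  intro m
  induction m with
  | zero =>
    intro _ l hl hlr hR
    cases hR
    have := hb.2.1
    simp only at this
    linarith
  | succ m ih =>
    intro hm l hl hlr hR
    have hlz : (1 : ℤ) ≤ l := by exact_mod_cast hl
    have hrg : r < g := by nlinarith
    cases hR with
    | L h1 h2 =>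
      exfalso
      simp only [Q4.L] at h1
      have : 0 ≤ ((l : ℤ) + 1) * ((h + g) - (l * r + r)) :=
        mul_nonneg (by linarith) (by linarith)
      nlinarith
    | R h1 h2 =>
      have e : (⟨h - l * r, c + l * (h + g) - (l : ℤ) ^ 2 * r, r, l * r - g⟩ : Q4).R =
          ⟨h - ((l + 1 : ℕ) : ℤ) * r, c + ((l + 1 : ℕ) : ℤ) * (h + g) -
            ((l + 1 : ℕ) : ℤ) ^ 2 * r, r, ((l + 1 : ℕ) : ℤ) * r - g⟩ := by
        simp only [Q4.R, Q4.mk.injEq]
        push_cast
        refine ⟨?_, ?_, trivial, ?_⟩ <;> ring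
      rw [e] at h1 h2
      by_cases hl2 : ((l + 1 : ℕ) : ℤ) * r < g
      · exact ih (by omega) (l + 1) (by omega) hl2 h2
      · push Not at hl2
        have e2 : ((l + 1 : ℕ) : ℤ) * r = l * r + r := by push_cast; ring
        have a1 := bridge1 (h := h) (c := c) (r := r) (g := g) i (l + 1) hc hr hg hi hi1 hi2 hi3
          (by omega) (by push_cast; linarith) hl2 (by linarith) hgh H
        refine a1.trans (IH m (by omega) _ ⟨?_, ?_, h1, hr⟩ ⟨?_, ?_⟩ h2)
        · show 0 ≤ h - ((l + 1 : ℕ) : ℤ) * r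
          linarith
        · show 0 ≤ ((l + 1 : ℕ) : ℤ) * r - g
          linarith
        · simp only
          have : 0 < g * h + r * c :=
            add_pos (mul_pos hg (by linarith)) (mul_pos hr hc)
          nlinarith
        · simp only
          nlinarith

theorem run3 {c2 : ℤ} (hrh : h < r) (hc2 : c2 = g + h + c - r) (hc2p : 0 < c2) :
    ∀ m < N, ∀ l : ℕ, l * c2 < r - h →
    Reach b m ⟨h - r + l * c2, c2, r + l * (2 * r - g - h) - (l : ℤ) ^ 2 * c2, r - g - l * c2⟩ →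
    SZ (C2 (h - i * c) c (r + i * (h + g) - (i : ℤ) ^ 2 * c) (i * c - g)) b.C := by
  have h5 := five hc hr hg hgh H
  have h44 : 4 * g + 4 * c ≤ h := by
    by_contra hh
    push Not at hh
    have p1 : 0 ≤ h * (4 * g + 4 * c - h) := mul_nonneg (by linarith) (by linarith)
    have p2 : 0 ≤ c * (r - h) := mul_nonneg hc.le (by linarith)
    have p3 : 0 < g * (2 * h - g) := mul_pos hg (by linarith)
    nlinarith
  intro m
  induction m with
  | zero =>
    intro _ l hlr hR
    cases hR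
    have := hb.1
    simp only at this
    linarith
  | succ m ih =>
    intro hm l hlr hR
    have hlz : (0 : ℤ) ≤ l := by positivity
    cases hR with
    | R h1 h2 =>
      exfalso
      simp only [Q4.R] at h1
      have : 0 ≤ ((l : ℤ) + 1) * ((2 * r - g - h) - (l * c2 + c2)) := by
        refine mul_nonneg (by linarith) ?_
        rw [hc2] at hlr ⊢
        linarith
      nlinarith
    | L h1 h2 =>
      have e : (⟨h - r + l * c2, c2, r + l * (2 * r - g - h) - (l : ℤ) ^ 2 * c2,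
          r - g - l * c2⟩ : Q4).L =
          ⟨h - r + ((l + 1 : ℕ) : ℤ) * c2, c2, r + ((l + 1 : ℕ) : ℤ) * (2 * r - g - h) -
            ((l + 1 : ℕ) : ℤ) ^ 2 * c2, r - g - ((l + 1 : ℕ) : ℤ) * c2⟩ := by
        simp only [Q4.L, Q4.mk.injEq]
        push_cast
        refine ⟨?_, trivial, ?_, ?_⟩ <;> ring
      rw [e] at h1 h2
      have e2 : ((l + 1 : ℕ) : ℤ) * c2 = l * c2 + c2 := by push_cast; ring
      by_cases hl2 : ((l + 1 : ℕ) : ℤ) * c2 < r - h
      · exact ih (by omega) (l + 1) hl2 h2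
      · push Not at hl2
        have a1 := bridge2 (h := h) (c := c) (r := r) (g := g) (c2 := c2) i (l + 1) hc hg hrh
          hc2 hc2p hi hi1 hi2 hi3 (by omega) (by push_cast; linarith) hl2 hgh H
        have e4 : ((l + 1 : ℕ) : ℤ) * c2 < g + c := by
          rw [e2]
          linarith
        refine a1.trans (IH m (by omega) _ ⟨?_, ?_, hc2p, h1⟩ ⟨?_, ?_⟩ h2)
        · show 0 ≤ h - r + ((l + 1 : ℕ) : ℤ) * c2
          linarith
        · show 0 ≤ r - g - ((l + 1 : ℕ) : ℤ) * c2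
          linarith
        · simp only
          have hpos : 0 < g * h + r * c :=
            add_pos (mul_pos hg (by linarith)) (mul_pos hr hc)
          have e3 : c2 * (r + ((l + 1 : ℕ) : ℤ) * (2 * r - g - h) - ((l + 1 : ℕ) : ℤ) ^ 2 * c2) -
              (h - r + ((l + 1 : ℕ) : ℤ) * c2) * (r - g - ((l + 1 : ℕ) : ℤ) * c2) =
              g * h + r * c := by
            rw [hc2]; ring
          rw [e3]; exact hpos
        · simp only
          have e3 : c2 * (r + ((l + 1 : ℕ) : ℤ) * (2 * r - g - h) - ((l + 1 : ℕ) : ℤ) ^ 2 * c2) -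
              (h - r + ((l + 1 : ℕ) : ℤ) * c2) * (r - g - ((l + 1 : ℕ) : ℤ) * c2) =
              g * h + r * c := by
            rw [hc2]; ring
          have e5 : h - r + ((l + 1 : ℕ) : ℤ) * c2 + (r - g - ((l + 1 : ℕ) : ℤ) * c2) = h - g := by
            ring
          rw [e3, e5]
          exact H

end gap

theorem gapL {b : Q4} {N : ℕ} (hb : b.Good) (IH : IHyp b N) : ∀ m < N, ∀ (h c r g : ℤ) (i : ℕ),
    0 < c → 0 < r → 0 < g → 1 ≤ i → ((i : ℤ) - 1) * c < g → g ≤ i * c → i * c ≤ h → g ≤ h →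
    4 * (g * h + r * c) ≤ (h - g) ^ 2 → Reach b m ⟨h, c, r, -g⟩ →
    SZ (C2 (h - i * c) c (r + i * (h + g) - (i : ℤ) ^ 2 * c) (i * c - g)) b.C := by
  intro m
  induction m with
  | zero =>
    intro _ h c r g i hc hr hg hi hi1 hi2 hi3 hgh H hR
    cases hR
    have := hb.2.1
    simp only at this
    linarith
  | succ m ih =>
    intro hm h c r g i hc hr hg hi hi1 hi2 hi3 hgh H hR
    have h5 := five hc hr hg hgh H
    cases hR with
    | L h1 h2 =>
      have e : (⟨h, c, r, -g⟩ : Q4).L = ⟨h + c, c, r - g - h - c, -(g + c)⟩ := by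
        simp only [Q4.L, Q4.mk.injEq]
        refine ⟨trivial, trivial, ?_, ?_⟩ <;> ring
      rw [e] at h1 h2
      simp only at h1
      have := ih (by omega) (h + c) c (r - g - h - c) (g + c) (i + 1) hc h1 (by linarith)
        (by omega) (by push_cast; linarith) (by push_cast; linarith) (by push_cast; linarith)
        (by linarith) (by nlinarith) h2
      have e2 : C2 (h + c - ((i + 1 : ℕ) : ℤ) * c) c
          (r - g - h - c + ((i + 1 : ℕ) : ℤ) * (h + c + (g + c)) - ((i + 1 : ℕ) : ℤ) ^ 2 * c)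
          (((i + 1 : ℕ) : ℤ) * c - (g + c)) =
          C2 (h - i * c) c (r + i * (h + g) - (i : ℤ) ^ 2 * c) (i * c - g) := by
        push_cast
        congr 1 <;> ring
      rw [e2] at this
      exact this
    | R h1 h2 =>
      have e : (⟨h, c, r, -g⟩ : Q4).R = ⟨h - r, g + h + c - r, r, r - g⟩ := by
        simp only [Q4.R, Q4.mk.injEq]
        refine ⟨trivial, ?_, trivial, ?_⟩ <;> ring
      rw [e] at h1 h2
      simp only at h1
      rcases le_or_gt r h with hrh | hrh
      · rcases le_or_gt g r with hgr | hgr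
        · have a1 := bridge1 (h := h) (c := c) (r := r) (g := g) i 1 hc hr hg hi hi1 hi2 hi3
            le_rfl (by rw [Nat.cast_one]; linarith) (by rw [Nat.cast_one]; linarith)
            (by rw [Nat.cast_one]; linarith) hgh H
          have e2 : C2 (h - ((1 : ℕ) : ℤ) * r) (c + ((1 : ℕ) : ℤ) * (h + g) - ((1 : ℕ) : ℤ) ^ 2 * r)
              r (((1 : ℕ) : ℤ) * r - g) = C2 (h - r) (g + h + c - r) r (r - g) := by
            push_cast
            congr 1 <;> ring
          rw [e2] at a1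
          refine a1.trans (IH m (by omega) ⟨h - r, g + h + c - r, r, r - g⟩
            ⟨?_, ?_, h1, hr⟩ ⟨?_, ?_⟩ h2)
          · show 0 ≤ h - r
            linarith
          · show 0 ≤ r - g
            linarith
          · simp only
            have : 0 < g * h + r * c :=
            add_pos (mul_pos hg (by linarith)) (mul_pos hr hc)
            nlinarith
          · simp only
            nlinarith
        · have e3 : (⟨h - r, g + h + c - r, r, r - g⟩ : Q4) =
              ⟨h - ((1 : ℕ) : ℤ) * r, c + ((1 : ℕ) : ℤ) * (h + g) - ((1 : ℕ) : ℤ) ^ 2 * r, r,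
                ((1 : ℕ) : ℤ) * r - g⟩ := by
            simp only [Q4.mk.injEq]
            push_cast
            refine ⟨?_, ?_, trivial, ?_⟩ <;> ring
          rw [e3] at h2
          exact run2 hb IH hc hr hg hi hi1 hi2 hi3 hgh H m (by omega) 1 le_rfl
            (by rw [Nat.cast_one]; linarith) h2
      · have e3 : (⟨h - r, g + h + c - r, r, r - g⟩ : Q4) =
            ⟨h - r + ((0 : ℕ) : ℤ) * (g + h + c - r), g + h + c - r,
              r + ((0 : ℕ) : ℤ) * (2 * r - g - h) - ((0 : ℕ) : ℤ) ^ 2 * (g + h + c - r),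
              r - g - ((0 : ℕ) : ℤ) * (g + h + c - r)⟩ := by
          simp only [Q4.mk.injEq]
          push_cast
          refine ⟨?_, trivial, ?_, ?_⟩ <;> ring
        rw [e3] at h2
        exact run3 hb IH hc hr hg hi hi1 hi2 hi3 hgh H hrh rfl h1 m (by omega) 0
          (by rw [Nat.cast_zero]; linarith) h2

theorem caseL {b : Q4} {N : ℕ} (hb : b.Good) (IH : IHyp b N) {m : ℕ} (hm : m < N) {a : Q4}
    (ha : a.Good) (hr : a.Reg) (h1 : 0 < a.L.s) (h2 : Reach b m a.L) : SZ a.C b.C := by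
  rcases le_or_gt 0 a.L.u with hu | hu
  · obtain ⟨k1, k2, k3⟩ := good_step ha hr h1 hu
    exact k1.trans (IH m hm _ k2 k3 h2)
  · obtain ⟨hp, hu', hq, hs⟩ := ha
    obtain ⟨r1, r2⟩ := hr
    obtain ⟨p, q, s, u⟩ := a
    simp only [Q4.L, Q4.C] at *
    have := gapL hb IH m hm (p + q) q (s + u - p - q) (q - u) 1 hq h1 (by linarith) le_rfl
      (by rw [Nat.cast_one]; linarith) (by rw [Nat.cast_one]; linarith)
      (by rw [Nat.cast_one]; linarith) (by linarith) (by nlinarith)
      (by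
        have e : -(q - u) = u - q := by ring
        rw [e]; exact h2)
    have e : C2 (p + q - ((1 : ℕ) : ℤ) * q) q
        (s + u - p - q + ((1 : ℕ) : ℤ) * (p + q + (q - u)) - ((1 : ℕ) : ℤ) ^ 2 * q)
        (((1 : ℕ) : ℤ) * q - (q - u)) = C2 p q s u := by
      push_cast
      congr 1 <;> ring
    rw [e] at this
    exact this

theorem main_chain : ∀ (N : ℕ) (b a : Q4), b.Good → a.Good → a.Reg → Reach b N a →
    SZ a.C b.C := by
  intro N
  induction N using Nat.strong_induction_on with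
  | _ N ih =>
    intro b a hb ha hr hR
    cases hR with
    | refl => exact SZ.refl _
    | @L n _ h1 h2 =>
      exact caseL hb (fun m hm a' ha' hr' hR' => ih m hm b a' hb ha' hr' hR')
        (Nat.lt_succ_self n) ha hr h1 h2
    | @R n _ h1 h2 =>
      have h3 := h2.sw
      rw [Q4.R_sw] at h3
      have h4 : 0 < a.sw.L.s := by rw [← Q4.R_sw]; exact h1
      have h5 := caseL hb.sw (fun m hm a' ha' hr' hR' => ih m hm b.sw a' hb.sw ha' hr' hR')
        (Nat.lt_succ_self n) ha.sw hr.sw h4 h3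
      exact ha.swC.trans (h5.trans hb.swC.symm)

end Pool.Agent.Q133.SS
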