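import Pool.Agent.Q133.SS.WChain

set_option autoImplicit false

namespace Pool.Agent.Q133.SS

open Matrix

theorem inK_nonneg {X a b : ℤ} (hX : 0 < X) (h : InK X a b) : 0 ≤ a := by
  obtain ⟨h1, h2⟩ := h
  have : 0 ≤ X * a := by linarith
  exact nonneg_of_mul_nonneg_right this hX

theorem ineqA {h c r g X : ℤ} (hc : 0 < c) (h1 : r + 2 * g + 2 * c ≤ h)
    (h2 : 2 ≤ X → 4 * g + 1 ≤ h) (hX : 1 ≤ X) (hXc : X * c < g) :
    r + (X + 1) * (g + 2 * X - 2 + X * c) ≤ X * h := by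
  have hXg : X + 1 ≤ g := by nlinarith
  rcases eq_or_lt_of_le hX with h3 | h3
  · rw [← h3]; linarith
  · have h2' := h2 (by linarith)
    have p1 : 0 ≤ (X - 1) * (h - 4 * g - 1) := mul_nonneg (by linarith) (by linarith)
    have p2 : 0 ≤ (X - 2) * (g - X - 1) := mul_nonneg (by linarith) (by linarith)
    have p3 : 0 ≤ (X + 1) * (g - 1 - X * c) := mul_nonneg (by linarith) (by linarith)
    nlinarith

theorem ineqB {h c r g X : ℤ} (hc : 0 < c) (h1 : r < g) (h2 : 4 * g + 1 ≤ h)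
    (hX : 1 ≤ X) (hXc : X * c < g) :
    r + (X + 1) * (g - 2 * c + 2 * X + X * c) ≤ X * h := by
  have hXg : X + 1 ≤ g := by nlinarith
  rcases eq_or_lt_of_le hX with h3 | h3
  · rw [← h3]; linarith
  · have p1 : 0 ≤ X * (h - 4 * g - 1) := mul_nonneg (by linarith) (by linarith)
    have p2 : 0 ≤ (2 * X - 1) * (g - X - 1) := mul_nonneg (by linarith) (by linarith)
    have p3 : 0 ≤ (X - 1) * (g - 1 - X * c) := mul_nonneg (by linarith) (by linarith)
    nlinarith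

theorem condA {h c r g s X : ℤ} (hc : 0 < c) (hs1 : 2 * s ≤ g + c) (hs2 : g + c ≤ 2 * s + 1)
    (hX : 1 ≤ X) (hXc : X * c < g)
    (ha : r + (X + 1) * (g + 2 * X - 2 + X * c) ≤ X * h)
    (hb : -r + (X + 1) * (g - 2 * c + 2 * X + X * c) ≤ X * h) :
    0 ≤ h - (X + 1) * (2 * cl (g - s) X + c) ∧
      InK X (h - (X + 1) * (2 * cl (g - s) X + c)) (r + (X + 1) * (2 * s - g)) := by
  have hX0 : 0 < X := by linarith
  have hn := cl_lt (a := g - s) hX0
  have k1 : (X + 1) * (2 * (X * cl (g - s) X) + X * c) ≤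
      (X + 1) * (2 * (g - s + X - 1) + X * c) :=
    mul_le_mul_of_nonneg_left (by linarith) (by linarith)
  have k2 : 0 ≤ (X + 1) * (2 * s + 1 - g - c) := mul_nonneg (by linarith) (by linarith)
  have hK : InK X (h - (X + 1) * (2 * cl (g - s) X + c)) (r + (X + 1) * (2 * s - g)) := by
    constructor <;> nlinarith
  exact ⟨inK_nonneg hX0 hK, hK⟩

theorem condPos {h c r g s X : ℤ} (hc : 0 < c) (hr : 0 ≤ r) (hs1 : 2 * s ≤ g + c)
    (hs2 : g + c ≤ 2 * s + 1) (hX : 1 ≤ X) (hXc : X * c < g)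
    (h1 : r + 2 * g + 2 * c ≤ h) (h2 : 2 ≤ X → 4 * g + 1 ≤ h) :
    0 ≤ h - (X + 1) * (2 * cl (g - s) X + c) ∧
      InK X (h - (X + 1) * (2 * cl (g - s) X + c)) (r + (X + 1) * (2 * s - g)) := by
  have ha := ineqA hc h1 h2 hX hXc
  refine condA hc hs1 hs2 hX hXc ha ?_
  have : 0 ≤ (X + 1) * (c - 1) := mul_nonneg (by linarith) (by linarith)
  nlinarith

theorem condNeg {h c r g s X : ℤ} (hc : 0 < c) (hr : 0 ≤ r) (hrg : r < g) (hs1 : 2 * s ≤ g + c)
    (hs2 : g + c ≤ 2 * s + 1) (hX : 1 ≤ X) (hXc : X * c < g) (h2 : 4 * g + 1 ≤ h) :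
    0 ≤ h - (X + 1) * (2 * cl (g - s) X + c) ∧
      InK X (h - (X + 1) * (2 * cl (g - s) X + c)) (-r + (X + 1) * (2 * s - g)) := by
  have hcg : c < g := by nlinarith
  have ha := ineqA (r := 0) hc (by linarith) (fun _ => h2) hX hXc
  have hb := ineqB hc hrg h2 hX hXc
  exact condA hc hs1 hs2 hX hXc (by linarith) (by linarith)

theorem condRec {h c r g X : ℤ} (hc : 0 < c) (hX : 1 ≤ X) (hXc : X * c < g)
    (h1 : r + 2 * g ≤ h + 2 * c) (h2 : 5 * g ≤ h + 2 * c) (h3 : g ≤ r) :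
    0 ≤ h - (X + 1) * (2 * nm g c X + c) ∧
      InK X (h - (X + 1) * (2 * nm g c X + c)) (-r + (X + 1) * g) := by
  have hX0 : 0 < X := by linarith
  have hXg : X + 1 ≤ g := by nlinarith
  have hcl : c < cl g X := by
    have := cl_ge (a := g) hX0
    by_contra hh
    push Not at hh
    have : X * cl g X ≤ X * c := mul_le_mul_of_nonneg_left hh hX0.le
    linarith
  have hnm : nm g c X = cl g X - c := by
    unfold nm; exact max_eq_right (by linarith)
  have hn := cl_lt (a := g) hX0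
  have k1 : (X + 1) * (2 * (X * nm g c X) + X * c) ≤
      (X + 1) * (2 * (g + X - 1 - X * c) + X * c) := by
    refine mul_le_mul_of_nonneg_left ?_ (by linarith)
    rw [hnm]
    linarith
  have q1 : 0 ≤ (X - 1) * (h + 2 * c - 5 * g) := mul_nonneg (by linarith) (by linarith)
  have q2 : 0 ≤ (X - 1) * (g - X - 1) := mul_nonneg (by linarith) (by linarith)
  have q3 : 0 ≤ (X - 1) * (X * c) := mul_nonneg (by linarith) (by positivity)
  have q4 : 0 ≤ (X - 1) * g := mul_nonneg (by linarith) (by linarith)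
  have hK : InK X (h - (X + 1) * (2 * nm g c X + c)) (-r + (X + 1) * g) := by
    constructor
    · nlinarith
    · nlinarith
  exact ⟨inK_nonneg hX0 hK, hK⟩

/-- the case `j ≥ 2` -/
theorem Aplus2 {h c r g : ℤ} (s : ℤ) (j : ℕ) (hj : 2 ≤ j) (hc : 0 < c) (hg : 0 < g)
    (hs0 : 0 ≤ s) (hsg : s ≤ g) (hs2 : 2 * s ≤ g + c)
    (hjg : g ≤ j * c) (hG1 : 0 ≤ h - j * c) (hG3 : 0 ≤ r + j * (h + g) - (j : ℤ) ^ 2 * c)
    (hcond : ∀ X : ℕ, 1 ≤ X → X < j →
      0 ≤ h - ((X : ℤ) + 1) * (2 * cl (g - s) X + c) ∧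
      InK X (h - ((X : ℤ) + 1) * (2 * cl (g - s) X + c)) (r + ((X : ℤ) + 1) * (2 * s - g)))
    (hz0 : 0 ≤ h - 2 * g - c) (C0 : InK 1 (h - 2 * g - c) (r - g)) :
    SZ (C2 (h - j * c) c (r + j * (h + g) - (j : ℤ) ^ 2 * c) (j * c - g)) (W h c r g 1 g 0) := by
  obtain ⟨i, rfl⟩ : ∃ i, j = i + 1 := ⟨j - 1, by omega⟩
  have hi : 1 ≤ i := by omega
  obtain ⟨hz, hZ1, hZ2⟩ := hcond i hi (by omega)
  have hip : (0 : ℤ) < i := by exact_mod_cast hi
  have hip1 : (0 : ℤ) < (i : ℤ) + 1 := by linarith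
  have hn0 : 0 ≤ cl (g - s) i := cl_nonneg hip (by linarith)
  have hn0g := cl_ge (a := g - s) hip
  have hle : cl (g - s) ((i : ℤ) + 1) ≤ cl (g - s) i := cl_le hip1 (by linarith)
  have hle2 : ((i : ℤ) + 1) * cl (g - s) ((i : ℤ) + 1) ≤ ((i : ℤ) + 1) * cl (g - s) i :=
    mul_le_mul_of_nonneg_left hle hip1.le
  have hz' : 0 ≤ h - ((i : ℤ) + 1) * (2 * cl (g - s) ((i : ℤ) + 1) + c) := by linarith
  have hmono : (h - ((i : ℤ) + 1) * (2 * cl (g - s) i + c)) ≤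
      h - ((i : ℤ) + 1) * (2 * cl (g - s) ((i : ℤ) + 1) + c) := by linarith
  have hmul := mul_le_mul_of_nonneg_left hmono hip.le
  have hZj : InK ((i : ℤ) + 1) (h - ((i : ℤ) + 1) * (2 * cl (g - s) ((i : ℤ) + 1) + c))
      (r + ((i : ℤ) + 1) * (2 * s - g)) := by
    constructor <;> linarith
  refine Aplus s (i + 1) (by omega) hc hg hs0 hsg hs2 hjg hG1 hG3 hcond ?_ ?_ hz0 C0
  · push_cast; exact hz'
  · push_cast; exact hZj

theorem AplusPos {h c r g : ℤ} (j : ℕ) (hj : 1 ≤ j) (hc : 0 < c) (hg : 0 < g) (hr : 0 ≤ r)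
    (hjc : ((j : ℤ) - 1) * c < g)
    (hjg : g ≤ j * c) (hG1 : 0 ≤ h - j * c) (hG3 : 0 ≤ r + j * (h + g) - (j : ℤ) ^ 2 * c)
    (h1 : r + g + c ≤ h) (h2 : 3 * g + c ≤ h + r)
    (h3 : 2 ≤ j → r + 2 * g + 2 * c ≤ h ∧ 4 * g + 1 ≤ h) :
    SZ (C2 (h - j * c) c (r + j * (h + g) - (j : ℤ) ^ 2 * c) (j * c - g)) (W h c r g 1 g 0) := by
  rcases Nat.lt_or_ge 1 j with hj2 | hj2
  · obtain ⟨h4, h5⟩ := h3 hj2
    have hjr : (2 : ℤ) ≤ j := by exact_mod_cast hj2
    have hcg : c < g := by nlinarith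
    have e1 := Int.ediv_mul_le (g + c) (two_ne_zero)
    have e2 := Int.lt_ediv_add_one_mul_self (g + c) (by norm_num : (0 : ℤ) < 2)
    refine Aplus2 ((g + c) / 2) j hj2 hc hg (by omega) (by omega) (by omega) hjg hG1 hG3 ?_
      (by linarith) ⟨by linarith, by linarith⟩
    intro X hX hXj
    have hXz : (1 : ℤ) ≤ X := by exact_mod_cast hX
    have hXj' : (X : ℤ) ≤ j - 1 := by
      have : (X : ℤ) + 1 ≤ j := by exact_mod_cast hXj
      linarith
    exact condPos hc hr (by omega) (by omega) hXz (by nlinarith) h4 (fun _ => h5)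
  · have hj1 : j = 1 := by omega
    subst hj1
    rw [Nat.cast_one] at *
    have hcg : g ≤ c := by linarith
    refine Aplus g 1 le_rfl hc hg hg.le le_rfl (by linarith) (by simpa using hjg)
      (by simpa using hG1) (by simpa using hG3) (fun X hX hX1 => by omega) ?_ ?_ (by linarith) ?_
    · rw [Nat.cast_one, sub_self, cl_one]; linarith
    · rw [Nat.cast_one, sub_self, cl_one]; constructor <;> linarith
    · constructor <;> linarith

theorem AplusNeg {h c r g : ℤ} (j : ℕ) (hj : 1 ≤ j) (hc : 0 < c) (hg : 0 < g) (hr : 0 ≤ r)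
    (hrg : r < g) (hcg : c < g)
    (hjc : ((j : ℤ) - 1) * c < g)
    (hjg : g ≤ j * c) (hG1 : 0 ≤ h - j * c) (hG3 : 0 ≤ -r + j * (h + g) - (j : ℤ) ^ 2 * c)
    (h1 : 3 * g + c + r ≤ h) (h2 : 4 * g + 1 ≤ h) :
    SZ (C2 (h - j * c) c (-r + j * (h + g) - (j : ℤ) ^ 2 * c) (j * c - g))
      (W h c (-r) g 1 g 0) := by
  have hj2 : 2 ≤ j := by
    by_contra hh
    have : j = 1 := by omega
    subst this
    rw [Nat.cast_one] at hjg
    linarith
  have hjr : (2 : ℤ) ≤ j := by exact_mod_cast hj2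
  refine Aplus2 ((g + c) / 2) j hj2 hc hg (by omega) (by omega) (by omega) hjg hG1 hG3 ?_
    (by linarith) ⟨by linarith, by linarith⟩
  intro X hX hXj
  have hXz : (1 : ℤ) ≤ X := by exact_mod_cast hX
  have hXj' : (X : ℤ) ≤ j - 1 := by
    have : (X : ℤ) + 1 ≤ j := by exact_mod_cast hXj
    linarith
  exact condNeg hc hr hrg (by omega) (by omega) hXz (by nlinarith) h2

end Pool.Agent.Q133.SS
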