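import Pool.Agent.Q133.SS.Basic

set_option autoImplicit false

namespace Pool.Agent.Q133.SS

open Matrix

def hd : List ℕ → ℕ
  | [] => 0
  | a :: _ => a

def tl : List ℕ → List ℕ
  | [] => []
  | _ :: l => l

def hdL : LL → List ℕ
  | [] => []
  | a :: _ => a

def tlL : LL → LL
  | [] => []
  | _ :: l => l

theorem nth_hd (l : List ℕ) : nth l 0 0 = hd l := by cases l <;> rfl
theorem nth_tl (l : List ℕ) (i : ℕ) : nth l (i + 1) 0 = nth (tl l) i 0 := by cases l <;> rfl
theorem nthL_hd (l : LL) : nth l 0 [] = hdL l := by cases l <;> rfl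
theorem nthL_tl (l : LL) (i : ℕ) : nth l (i + 1) [] = nth (tlL l) i [] := by cases l <;> rfl

/-- `acc + c * row`, first `m` entries -/
def axpy (c : ℕ) : ℕ → List ℕ → List ℕ → List ℕ
  | 0, _, _ => []
  | m + 1, row, acc => (hd acc + c * hd row) :: axpy c m (tl row) (tl acc)

theorem nth_axpy (c m : ℕ) : ∀ (row acc : List ℕ) (j : ℕ), j < m →
    nth (axpy c m row acc) j 0 = nth acc j 0 + c * nth row j 0 := by
  induction m with
  | zero => intro row acc j hj; omega
  | succ m ih =>
    intro row acc j hj
    cases j with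
    | zero => simp [axpy, nth_hd, hd]
    | succ j =>
      simp only [axpy, nth, nth_tl]
      exact ih _ _ j (by omega)

/-- row vector `r` (first `k` entries) times the matrix `S` (`k` rows, `m` columns) -/
def rowT (m : ℕ) : ℕ → List ℕ → LL → List ℕ
  | 0, _, _ => []
  | k + 1, r, S => axpy (hd r) m (hdL S) (rowT m k (tl r) (tlL S))

theorem nth_nil (j : ℕ) : nth ([] : List ℕ) j 0 = 0 := by cases j <;> rfl

theorem nth_rowT (m : ℕ) : ∀ (k : ℕ) (r : List ℕ) (S : LL) (j : ℕ), j < m →
    nth (rowT m k r S) j 0 = ∑ l : Fin k, nth r l 0 * ent S l j := by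
  intro k
  induction k with
  | zero => intro r S j hj; simp [rowT, nth_nil]
  | succ k ih =>
    intro r S j hj
    rw [rowT, nth_axpy _ _ _ _ _ hj, ih _ _ _ hj, Fin.sum_univ_succ]
    simp only [ent, Fin.val_zero, Fin.val_succ, nth_tl, nthL_tl, nth_hd, nthL_hd]
    ring

def mulLL (k m : ℕ) (S : LL) : ℕ → LL → LL
  | 0, _ => []
  | n + 1, R => rowT m k (hdL R) S :: mulLL k m S n (tlL R)

theorem ent_mulLL (k m : ℕ) (S : LL) : ∀ (n : ℕ) (R : LL) (i j : ℕ), i < n → j < m →
    ent (mulLL k m S n R) i j = ∑ l : Fin k, ent R i l * ent S l j := by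
  intro n
  induction n with
  | zero => intro R i j hi; omega
  | succ n ih =>
    intro R i j hi hj
    cases i with
    | zero =>
      simp only [ent, mulLL, nthL_hd, hdL]
      exact nth_rowT m k (hdL R) S j hj
    | succ i =>
      have := ih (tlL R) i j (by omega) hj
      simp only [ent, mulLL, nthL_tl, tlL] at *
      exact this

theorem toM_mulLL (n k m : ℕ) (R S : LL) :
    toM n m (mulLL k m S n R) = toM n k R * toM k m S := by
  ext i j
  simp only [toM, Matrix.mul_apply]
  exact ent_mulLL k m S n R i j i.2 j.2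

def eqL : ℕ → List ℕ → List ℕ → Bool
  | 0, _, _ => true
  | m + 1, a, b => Nat.beq (hd a) (hd b) && eqL m (tl a) (tl b)

theorem eqL_spec : ∀ (m : ℕ) (a b : List ℕ), eqL m a b = true → ∀ j < m, nth a j 0 = nth b j 0 := by
  intro m
  induction m with
  | zero => intro a b _ j hj; omega
  | succ m ih =>
    intro a b h j hj
    simp only [eqL, Bool.and_eq_true] at h
    cases j with
    | zero => rw [nth_hd, nth_hd]; exact Nat.eq_of_beq_eq_true h.1
    | succ j => rw [nth_tl, nth_tl]; exact ih _ _ h.2 j (by omega)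

def eqLL (m : ℕ) : ℕ → LL → LL → Bool
  | 0, _, _ => true
  | n + 1, A, B => eqL m (hdL A) (hdL B) && eqLL m n (tlL A) (tlL B)

theorem eqLL_spec (m : ℕ) : ∀ (n : ℕ) (A B : LL), eqLL m n A B = true →
    ∀ i < n, ∀ j < m, ent A i j = ent B i j := by
  intro n
  induction n with
  | zero => intro A B _ i hi; omega
  | succ n ih =>
    intro A B h i hi j hj
    simp only [eqLL, Bool.and_eq_true] at h
    cases i with
    | zero => simp only [ent, nthL_hd]; exact eqL_spec m _ _ h.1 j hj
    | succ i => simp only [ent, nthL_tl]; exact ih _ _ h.2 i (by omega) j hj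

theorem eqLL_toM {n m : ℕ} {A B : LL} (h : eqLL m n A B = true) : toM n m A = toM n m B := by
  ext i j
  exact eqLL_spec m n A B h i i.2 j j.2

/-! ### operations: untrusted builders of the factors `R`, `S` -/

def rowAt : ℕ → LL → List ℕ
  | _, [] => []
  | 0, a :: _ => a
  | n + 1, _ :: l => rowAt n l

def subM (m : ℕ) : List ℕ → List ℕ → List ℕ
  | [], _ => []
  | a :: l, b => (a - m * hd b) :: subM m l (tl b)

def mapAt {α : Type} (f : α → α) : ℕ → List α → List α
  | _, [] => []
  | 0, a :: l => f a :: l
  | n + 1, a :: l => a :: mapAt f n l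

/-- the `n` by `m` matrix with entries `f i j` -/
def build (n m : ℕ) (f : ℕ → ℕ → ℕ) : LL :=
  let rec row (i : ℕ) : ℕ → List ℕ → List ℕ
    | 0, acc => acc
    | k + 1, acc => row i k (f i k :: acc)
  let rec go : ℕ → LL → LL
    | 0, acc => acc
    | k + 1, acc => go k (row k m [] :: acc)
  go n []

def nat_eq (a b : ℕ) : Bool := Nat.beq a b

def delAt {α : Type} : ℕ → List α → List α
  | _, [] => []
  | 0, _ :: l => l
  | n + 1, a :: l => a :: delAt n l

/-- index after inserting a deleted index `j` -/
def up (j c : ℕ) : ℕ := if Nat.ble j c then c + 1 else c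

/-- builds `(m, R, S)` from the code of a move -/
def mk (n : ℕ) (A : LL) (op : List ℕ) : ℕ × LL × LL :=
  match op with
  | [0, s, t, m] => -- subtract m times row t from row s
    (n, build n n (fun i j => if nat_eq i j then 1 else if nat_eq i s && nat_eq j t then m else 0),
      mapAt (fun r => subM m r (rowAt t A)) s A)
  | [1, s, t, m] => -- subtract m times column t from column s
    (n, A.map (fun r => mapAt (fun x => x - m * nth r t 0) s r),
      build n n (fun i j => if nat_eq i j then 1 else if nat_eq i t && nat_eq j s then m else 0))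
  | [2, s, g] => -- divide row s by g
    (n, build n n (fun i j => if nat_eq i j then (if nat_eq i s then g else 1) else 0),
      mapAt (fun r => r.map (fun x => x / g)) s A)
  | [3, s, g] => -- divide column s by g
    (n, A.map (fun r => mapAt (fun x => x / g) s r),
      build n n (fun i j => if nat_eq i j then (if nat_eq i s then g else 1) else 0))
  | 4 :: s :: r1 => -- out-split s, part r1
    (n + 1, build n (n + 1) (fun i j => if nat_eq i j || (nat_eq i s && nat_eq j n) then 1 else 0),
      mapAt (fun _ => r1) s A ++ [subM 1 (rowAt s A) r1])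
  | 5 :: s :: c1 => -- in-split s, part c1
    (n + 1, build n (n + 1) (fun i j => if nat_eq j s then nth c1 i 0 else
        if nat_eq j n then ent A i s - nth c1 i 0 else ent A i j),
      build (n + 1) n (fun i j => if nat_eq i j || (nat_eq i n && nat_eq j s) then 1 else 0))
  | [6, i, j] => -- equal columns i, j
    (n - 1, A.map (fun r => delAt j r),
      build (n - 1) n (fun r c => if nat_eq c (up j r) || (nat_eq (up j r) i && nat_eq c j) then 1 else 0))
  | [7, i, j] => -- equal rows i, j
    (n - 1, build n (n - 1) (fun r c => if nat_eq r (up j c) || (nat_eq (up j c) i && nat_eq r j) then 1 else 0),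
      delAt j A)
  | [8, a, b, c, d, e, f, g, h] => (2, [[a, b], [c, d]], [[e, f], [g, h]])
  | [9, a, b, c, d] => (1, [[a], [b]], [[c, d]])
  | [10, a, b, c, d] => (2, [[a, b]], [[c], [d]])
  | 11 :: p => -- relabel: new state i is old state p i
    (n, build n n (fun i j => if nat_eq (nth p j 0) i then 1 else 0),
      build n n (fun i j => ent A (nth p i 0) j))
  | _ => (0, [], [])

def run : ℕ → LL → List (List ℕ) → ℕ → LL → Bool
  | n, A, [], n', A' => Nat.beq n n' && eqLL n n A A'
  | n, A, op :: t, n', A' =>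
    let x := mk n A op
    eqLL n n A (mulLL x.1 n x.2.2 n x.2.1) && run x.1 (mulLL n x.1 x.2.1 x.1 x.2.2) t n' A'

theorem run_spec : ∀ (l : List (List ℕ)) (n : ℕ) (A : LL) (n' : ℕ) (A' : LL),
    run n A l n' A' = true → SSE ⟨n, toM n n A⟩ ⟨n', toM n' n' A'⟩ := by
  intro l
  induction l with
  | nil =>
    intro n A n' A' h
    simp only [run, Bool.and_eq_true] at h
    obtain ⟨h1, h2⟩ := h
    have h3 := Nat.eq_of_beq_eq_true h1
    subst h3
    rw [eqLL_toM h2]
    exact SSE.refl _
  | cons op t ih =>
    intro n A n' A' h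
    simp only [run, Bool.and_eq_true] at h
    obtain ⟨h1, h2⟩ := h
    refine SSE.trans (Relation.TransGen.single ?_) (ih _ _ _ _ h2)
    refine ⟨toM n _ (mk n A op).2.1, toM _ n (mk n A op).2.2, ?_, ?_⟩
    · simp only
      rw [eqLL_toM h1, toM_mulLL]
    · simp only
      rw [toM_mulLL]

end Pool.Agent.Q133.SS
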