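import Pool.Agent.Q133.SS.Basic

set_option autoImplicit false

namespace Pool.Agent.Q133.SS

open Matrix Polynomial

theorem comm_aeval {n m : ℕ} (A : Matrix (Fin n) (Fin n) ℕ) (B : Matrix (Fin m) (Fin m) ℕ)
    (S : Matrix (Fin m) (Fin n) ℕ) (h : S * A = B * S) (q : ℕ[X]) :
    S * aeval A q = aeval B q * S := by
  induction q using Polynomial.induction_on' with
  | add p q hp hq => simp only [map_add, Matrix.mul_add, Matrix.add_mul, hp, hq]
  | monomial k a =>
    simp only [aeval_monomial]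
    have hk : S * A ^ k = B ^ k * S := by
      induction k with
      | zero => simp
      | succ k ih =>
        rw [pow_succ, ← Matrix.mul_assoc, ih, Matrix.mul_assoc, h, ← Matrix.mul_assoc, ← pow_succ]
    have e1 : (algebraMap ℕ (Matrix (Fin n) (Fin n) ℕ)) a * A ^ k = a • A ^ k := by
      rw [← Algebra.smul_def]
    have e2 : (algebraMap ℕ (Matrix (Fin m) (Fin m) ℕ)) a * B ^ k = a • B ^ k := by
      rw [← Algebra.smul_def]
    rw [e1, e2, Matrix.mul_smul, Matrix.smul_mul, hk]

theorem Elem.aeval {X Y : SqMat} (h : Elem X Y) (p : ℕ[X]) (hp : p.coeff 0 = 0) :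
    Elem ⟨X.1, Polynomial.aeval X.2 p⟩ ⟨Y.1, Polynomial.aeval Y.2 p⟩ := by
  obtain ⟨R, S, h1, h2⟩ := h
  have hd : p = Polynomial.X * p.divX := by
    have := Polynomial.X_mul_divX_add p
    rw [hp, map_zero, add_zero] at this
    exact this.symm
  have hc : S * X.2 = Y.2 * S := by rw [h1, h2, Matrix.mul_assoc]
  have hq := comm_aeval X.2 Y.2 S hc p.divX
  refine ⟨R, S * Polynomial.aeval X.2 p.divX, ?_, ?_⟩
  · simp only
    conv_lhs => rw [hd]
    rw [map_mul, aeval_X, ← Matrix.mul_assoc, ← h1]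
  · simp only
    conv_lhs => rw [hd]
    rw [map_mul, aeval_X, hq, Matrix.mul_assoc, ← h2]
    have e1 := comm_aeval Y.2 Y.2 Y.2 rfl p.divX
    exact e1

theorem SSE.aeval {X Y : SqMat} (h : SSE X Y) (p : ℕ[X]) (hp : p.coeff 0 = 0) :
    SSE ⟨X.1, Polynomial.aeval X.2 p⟩ ⟨Y.1, Polynomial.aeval Y.2 p⟩ := by
  unfold SSE at *
  induction h with
  | single h => exact Relation.TransGen.single (h.aeval p hp)
  | tail _ h ih => exact Relation.TransGen.tail ih (h.aeval p hp)

end Pool.Agent.Q133.SS
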