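import Pool.Agent.Q133.SS.Region

set_option autoImplicit false

namespace Pool.Agent.Q133.SS

open Matrix

abbrev M2 := Matrix (Fin 2) (Fin 2) ℤ

/-- shift equivalence data -/
theorem SSE.se {X Y : SqMat} (h : SSE X Y) : ∃ (l : ℕ) (R : Matrix (Fin X.1) (Fin Y.1) ℕ)
    (S : Matrix (Fin Y.1) (Fin X.1) ℕ), X.2 ^ l = R * S ∧ Y.2 ^ l = S * R ∧
      X.2 * R = R * Y.2 ∧ S * X.2 = Y.2 * S := by
  unfold SSE at h
  induction h with
  | single h =>
    obtain ⟨R, S, h1, h2⟩ := h
    refine ⟨1, R, S, by rw [pow_one, h1], by rw [pow_one, h2], ?_, ?_⟩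
    · rw [h1, h2, Matrix.mul_assoc]
    · rw [h1, h2, Matrix.mul_assoc]
  | @tail Y Z _ h ih =>
    obtain ⟨l, R, S, a1, a2, a3, a4⟩ := ih
    obtain ⟨R', S', h1, h2⟩ := h
    have b3 : Y.2 * R' = R' * Z.2 := by rw [h1, h2, Matrix.mul_assoc]
    have b4 : S' * Y.2 = Z.2 * S' := by rw [h1, h2, Matrix.mul_assoc]
    refine ⟨l + 1, R * R', S' * S, ?_, ?_, ?_, ?_⟩
    · have : R * R' * (S' * S) = R * (R' * S') * S := by simp only [Matrix.mul_assoc]
      rw [this, ← h1, ← a3, Matrix.mul_assoc, ← a1, ← pow_succ']
    · have e : ∀ n : ℕ, Z.2 ^ n * S' = S' * Y.2 ^ n := by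
        intro n
        induction n with
        | zero => simp
        | succ n ihn => rw [pow_succ, Matrix.mul_assoc, ← b4, ← Matrix.mul_assoc, ihn,
            Matrix.mul_assoc, ← pow_succ]
      have : S' * S * (R * R') = S' * (S * R) * R' := by simp only [Matrix.mul_assoc]
      rw [this, ← a2, ← e, Matrix.mul_assoc, ← h2, ← pow_succ]
    · rw [← Matrix.mul_assoc, a3, Matrix.mul_assoc, b3, Matrix.mul_assoc]
    · rw [Matrix.mul_assoc, a4, ← Matrix.mul_assoc, b4, Matrix.mul_assoc]

/-- divisibility of all entries -/
def Dv (p : ℤ) (M : M2) : Prop := ∀ i j, p ∣ M i j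

theorem Dv.exists {p : ℤ} {M : M2} (h : Dv p M) : ∃ N : M2, M = p • N := by
  choose f hf using h
  refine ⟨Matrix.of f, ?_⟩
  ext i j
  simp [hf i j]

theorem cayley (A : M2) : A * A = A.trace • A - A.det • (1 : M2) := by
  ext i j
  rw [Matrix.mul_apply, Fin.sum_univ_two, Matrix.sub_apply, Matrix.smul_apply, Matrix.smul_apply,
    Matrix.trace_fin_two, Matrix.det_fin_two, smul_eq_mul, smul_eq_mul]
  fin_cases i <;> fin_cases j <;> simp <;> ring

theorem dvd_of_eq_lin {p a b : ℤ} (h : p ∣ b) (e : a = b) : p ∣ a := e ▸ h

/-- the key step: `R` is divisible by `A` on the left, or `R` is divisible by `p` -/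
theorem key_div {p : ℤ} (hp : Prime p) {A B R S : M2} {l : ℕ} (hdet : A.det = p ∨ A.det = -p)
    (hAR : A * R = R * B) (hRS : A ^ l = R * S) (hR : p ∣ R.det) (hnR : ¬ Dv p R) :
    Dv p (A.adjugate * R) := by
  have hdA : p ∣ A.det := by rcases hdet with h | h <;> rw [h]; simp
  by_cases ht : p ∣ A.trace
  · -- nilpotent case
    -- a column of R not divisible by p
    have hadj : ∀ i j, p ∣ (A.adjugate * R) i j + (A * R) i j := by
      intro i j
      have e : A.adjugate * R + A * R = A.trace • R := by
        rw [← Matrix.add_mul]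
        have : A.adjugate + A = A.trace • (1 : M2) := by
          ext i j
          fin_cases i <;> fin_cases j <;>
            simp [Matrix.adjugate_fin_two, Matrix.trace_fin_two, add_comm]
        rw [this, Matrix.smul_mul, Matrix.one_mul]
      have e2 : (A.adjugate * R) i j + (A * R) i j = A.trace * R i j := by
        have := congrFun (congrFun e i) j
        simpa using this
      rw [e2]
      exact ht.mul_right _
    have hAA : Dv p (A * A * R) := by
      intro i j
      have e : A * A * R = A.trace • (A * R) - A.det • R := by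
        rw [cayley, Matrix.sub_mul, Matrix.smul_mul, Matrix.smul_mul, Matrix.one_mul]
      rw [e]
      simp only [Matrix.sub_apply, Matrix.smul_apply, smul_eq_mul]
      exact dvd_sub (ht.mul_right _) (hdA.mul_right _)
    -- if column k is not divisible by p then A * column is divisible, and so for the other column
    have main : ∀ k k' : Fin 2, k ≠ k' → (¬ ∀ i, p ∣ R i k) → Dv p (A * R) := by
      intro k k' hkk hk
      -- entries
      have hx : ∃ i, ¬ p ∣ R i k := by push Not at hk; exact hk
      obtain ⟨i0, hi0⟩ := hx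
      -- R i k' * R i0 k = R i0 k' * R i k mod p
      have hdk : p ∣ R 0 k * R 1 k' - R 1 k * R 0 k' := by
        have hd := hR
        rw [Matrix.det_fin_two] at hd
        have hkk2 : (k = 0 ∧ k' = 1) ∨ (k = 1 ∧ k' = 0) := by
          revert hkk
          fin_cases k <;> fin_cases k' <;> simp
        rcases hkk2 with ⟨h1, h2⟩ | ⟨h1, h2⟩
        · rw [h1, h2]; exact dvd_of_eq_lin hd (by ring)
        · rw [h1, h2]; exact dvd_of_eq_lin (dvd_neg.mpr hd) (by ring)
      have hdet2 : ∀ i, p ∣ R i k' * R i0 k - R i0 k' * R i k := by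
        intro i
        have hi : i = 0 ∨ i = 1 := by fin_cases i <;> simp
        have hi0' : i0 = 0 ∨ i0 = 1 := by fin_cases i0 <;> simp
        rcases hi with h1 | h1 <;> rcases hi0' with h2 | h2 <;> rw [h1, h2]
        · exact dvd_of_eq_lin (dvd_zero p) (by ring)
        · exact dvd_of_eq_lin (dvd_neg.mpr hdk) (by ring)
        · exact dvd_of_eq_lin hdk (by ring)
        · exact dvd_of_eq_lin (dvd_zero p) (by ring)
      -- A x = mu x with mu = (B k k + (R i0 k' / R i0 k) B k' k)
      have hAx : ∀ i, p ∣ (A * R) i k * R i0 k - (R i0 k * B k k + R i0 k' * B k' k) * R i k := by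
        intro i
        rw [hAR, Matrix.mul_apply]
        have hs : (∑ j, R i j * B j k) = R i k * B k k + R i k' * B k' k := by
          have hkk2 : (k = 0 ∧ k' = 1) ∨ (k = 1 ∧ k' = 0) := by
            revert hkk
            fin_cases k <;> fin_cases k' <;> simp
          rw [Fin.sum_univ_two]
          rcases hkk2 with ⟨h1, h2⟩ | ⟨h1, h2⟩
          · rw [h1, h2]
          · rw [h1, h2, add_comm]
        rw [hs]
        exact dvd_of_eq_lin ((hdet2 i).mul_right (B k' k)) (by ring)
      set mu := R i0 k * B k k + R i0 k' * B k' k with hmu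
      have hmup : p ∣ mu := by
        -- A (A x) * c^2 = mu^2 x
        have h1 : p ∣ (A * (A * R)) i0 k * (R i0 k * R i0 k) - mu * mu * R i0 k := by
          rw [Matrix.mul_apply, Fin.sum_univ_two]
          have e0 := (hAx 0).mul_right (A i0 0 * R i0 k)
          have e1 := (hAx 1).mul_right (A i0 1 * R i0 k)
          have e2 := (hAx i0).mul_right mu
          have e3 : (A * R) i0 k = A i0 0 * R 0 k + A i0 1 * R 1 k := by
            rw [Matrix.mul_apply, Fin.sum_univ_two]
          rw [e3] at e2
          exact dvd_of_eq_lin (dvd_add (dvd_add e0 e1) e2) (by ring)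
        have h2 : p ∣ (A * (A * R)) i0 k := by
          rw [← Matrix.mul_assoc]; exact hAA i0 k
        have h3 : p ∣ mu * mu * R i0 k := by
          exact dvd_of_eq_lin (dvd_sub (h2.mul_right (R i0 k * R i0 k)) h1) (by ring)
        rcases hp.dvd_or_dvd h3 with h | h
        · rcases hp.dvd_or_dvd h with h | h <;> exact h
        · exact absurd h hi0
      have hcol : ∀ i, p ∣ (A * R) i k := by
        intro i
        have h1 : p ∣ (A * R) i k * R i0 k := by
          exact dvd_of_eq_lin (dvd_add (hAx i) (hmup.mul_right (R i k))) (by ring)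
        rcases hp.dvd_or_dvd h1 with h | h
        · exact h
        · exact absurd h hi0
      have hcol' : ∀ i, p ∣ (A * R) i k' := by
        intro i
        have h1 : p ∣ (A * R) i k' * R i0 k := by
          rw [Matrix.mul_apply, Fin.sum_univ_two]
          have e0 := (hdet2 0).mul_right (A i 0)
          have e1 := (hdet2 1).mul_right (A i 1)
          have e3 : (A * R) i k = A i 0 * R 0 k + A i 1 * R 1 k := by
            rw [Matrix.mul_apply, Fin.sum_univ_two]
          have e2 := (hcol i).mul_right (R i0 k')
          rw [e3] at e2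
          exact dvd_of_eq_lin (dvd_add (dvd_add e0 e1) e2) (by ring)
        rcases hp.dvd_or_dvd h1 with h | h
        · exact h
        · exact absurd h hi0
      intro i j
      have hj : j = k ∨ j = k' := by
        fin_cases j <;> fin_cases k <;> fin_cases k' <;> simp at hkk ⊢
      rcases hj with rfl | rfl
      · exact hcol i
      · exact hcol' i
    have hAR' : Dv p (A * R) := by
      by_cases h0 : ∀ i, p ∣ R i 0
      · by_cases h1 : ∀ i, p ∣ R i 1
        · exfalso
          apply hnR
          intro i j
          fin_cases j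
          · exact h0 i
          · exact h1 i
        · exact main 1 0 (by decide) h1
      · exact main 0 1 (by decide) h0
    intro i j
    have := dvd_sub (hadj i j) (hAR' i j)
    simpa using this
  · -- A is not nilpotent modulo p
    have hpow : ∀ n : ℕ, Dv p (A ^ (n + 1) - A.trace ^ n • A) := by
      intro n
      induction n with
      | zero => intro i j; simp
      | succ n ih =>
        have e : A ^ (n + 1 + 1) - A.trace ^ (n + 1) • A =
            A * (A ^ (n + 1) - A.trace ^ n • A) - (A.trace ^ n * A.det) • (1 : M2) := by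
          rw [Matrix.mul_sub, ← pow_succ', Matrix.mul_smul, cayley, smul_sub, smul_smul,
            smul_smul, ← pow_succ]
          abel
        rw [e]
        intro i j
        simp only [Matrix.sub_apply, Matrix.smul_apply, smul_eq_mul]
        refine dvd_sub ?_ ?_
        · rw [Matrix.mul_apply]
          exact Finset.dvd_sum fun k _ => (ih k j).mul_left _
        · exact (hdA.mul_left _).mul_right _
    have hl : l ≠ 0 := by
      intro h0
      rw [h0, pow_zero] at hRS
      have h1 : (1 : M2).det = R.det * S.det := by rw [hRS, Matrix.det_mul]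
      rw [Matrix.det_one] at h1
      have : p ∣ 1 := by rw [h1]; exact hR.mul_right _
      exact hp.not_isUnit (isUnit_of_dvd_one this)
    obtain ⟨n, rfl⟩ := Nat.exists_eq_succ_of_ne_zero hl
    have h1 : Dv p (R.adjugate * A) := by
      intro i j
      have e : R.adjugate * (A ^ (n + 1) - A.trace ^ n • A) =
          R.det • S - A.trace ^ n • (R.adjugate * A) := by
        rw [Matrix.mul_sub, Matrix.mul_smul]
        congr 1
        rw [Nat.succ_eq_add_one] at hRS
        rw [hRS, ← Matrix.mul_assoc, Matrix.adjugate_mul, Matrix.smul_mul, Matrix.one_mul]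
      have h2 : p ∣ (R.adjugate * (A ^ (n + 1) - A.trace ^ n • A)) i j := by
        rw [Matrix.mul_apply]
        exact Finset.dvd_sum fun k _ => (hpow n k j).mul_left _
      rw [e] at h2
      simp only [Matrix.sub_apply, Matrix.smul_apply, smul_eq_mul] at h2
      have h3 : p ∣ A.trace ^ n * (R.adjugate * A) i j := by
        exact dvd_of_eq_lin (dvd_sub (hR.mul_right (S i j)) h2) (by ring)
      rcases hp.dvd_or_dvd h3 with h | h
      · exact absurd (hp.dvd_of_dvd_pow h) ht
      · exact h
    have h2 : (R.adjugate * A).adjugate = A.adjugate * R := by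
      rw [Matrix.adjugate_mul_distrib, Matrix.adjugate_adjugate R (by simp)]
      simp
    rw [← h2, Matrix.adjugate_fin_two]
    intro i j
    fin_cases i <;> fin_cases j
    · exact h1 1 1
    · simpa using h1 0 1
    · simpa using h1 1 0
    · exact h1 0 0

theorem conj_of_se {p : ℤ} (hp : Prime p) {A B : M2} (hdet : A.det = p ∨ A.det = -p) :
    ∀ (e : ℕ) (R S : M2) (l : ℕ), A * R = R * B → A ^ l = R * S →
      (R.det = p ^ e ∨ R.det = -p ^ e) → ∃ P : M2, IsUnit P.det ∧ A * P = P * B := by
  intro e
  have hp0 : p ≠ 0 := hp.ne_zero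
  have hdne : A.det ≠ 0 := by
    rcases hdet with h | h <;> rw [h]
    · exact hp0
    · exact neg_ne_zero.mpr hp0
  induction e using Nat.strong_induction_on with
  | _ e ih =>
    intro R S l hAR hRS hR
    rcases Nat.eq_zero_or_pos e with he | he
    · refine ⟨R, ?_, hAR⟩
      rw [he, pow_zero] at hR
      exact Int.isUnit_iff.mpr hR
    · have hpR : p ∣ R.det := by
        rcases hR with h | h <;> rw [h]
        · exact dvd_pow_self p he.ne'
        · exact (dvd_neg.mpr (dvd_pow_self p he.ne'))
      by_cases hD : Dv p R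
      · obtain ⟨N, hN⟩ := hD.exists
        have hdN : R.det = p ^ 2 * N.det := by
          rw [hN, Matrix.det_smul]; simp
        -- e ≥ 2
        have he2 : 2 ≤ e := by
          by_contra hh
          have : e = 1 := by omega
          subst this
          rw [hdN, pow_one] at hR
          have h1 : p ^ 2 ∣ p := by
            rcases hR with h | h
            · exact ⟨N.det, h.symm⟩
            · exact ⟨-N.det, by linarith⟩
          obtain ⟨k, hk⟩ := h1
          have : p * (p * k - 1) = 0 := by linarith
          rcases mul_eq_zero.mp this with h | h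
          · exact hp0 h
          · exact hp.not_isUnit (isUnit_of_dvd_one ⟨k, by linarith⟩)
        have hNd : N.det = p ^ (e - 2) ∨ N.det = -p ^ (e - 2) := by
          have hpp : p ^ e = p ^ 2 * p ^ (e - 2) := by rw [← pow_add]; congr 1; omega
          rw [hdN, hpp] at hR
          have h2 : (p ^ 2 : ℤ) ≠ 0 := pow_ne_zero _ hp0
          rcases hR with h | h
          · left; exact mul_left_cancel₀ h2 h
          · right; apply mul_left_cancel₀ h2; rw [h]; ring
        refine ih (e - 2) (by omega) N (p • S) l ?_ ?_ hNd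
        · rw [hN, Matrix.mul_smul, Matrix.smul_mul] at hAR
          exact smul_right_injective _ hp0 hAR
        · rw [hRS, hN, Matrix.smul_mul, Matrix.mul_smul]
      · have hk := key_div hp hdet hAR hRS hpR hD
        -- R = A * R'
        have hk' : Dv A.det (A.adjugate * R) := by
          rcases hdet with h | h <;> rw [h]
          · exact hk
          · intro i j; exact (neg_dvd.mpr (hk i j))
        obtain ⟨N, hN⟩ : ∃ N : M2, A.adjugate * R = A.det • N := by
          choose f hf using hk'
          refine ⟨Matrix.of f, ?_⟩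
          ext i j
          simp [hf i j]
        have hRN : R = A * N := by
          have h1 : A * (A.adjugate * R) = A.det • R := by
            rw [← Matrix.mul_assoc, Matrix.mul_adjugate, Matrix.smul_mul, Matrix.one_mul]
          rw [hN, Matrix.mul_smul] at h1
          exact (smul_right_injective _ hdne h1).symm
        have hcancel : ∀ X Y : M2, A * X = A * Y → X = Y := by
          intro X Y h
          have h1 : A.adjugate * (A * X) = A.adjugate * (A * Y) := by rw [h]
          rw [← Matrix.mul_assoc, ← Matrix.mul_assoc, Matrix.adjugate_mul, Matrix.smul_mul,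
            Matrix.smul_mul, Matrix.one_mul, Matrix.one_mul] at h1
          exact smul_right_injective _ hdne h1
        have hdN : R.det = A.det * N.det := by
          conv_lhs => rw [hRN]
          rw [Matrix.det_mul]
        have hNd : N.det = p ^ (e - 1) ∨ N.det = -p ^ (e - 1) := by
          have hpp : p ^ e = p * p ^ (e - 1) := by rw [← pow_succ']; congr 1; omega
          rw [hdN, hpp] at hR
          rcases hdet with h | h <;> rw [h] at hR
          · rcases hR with h' | h'
            · left; exact mul_left_cancel₀ hp0 h'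
            · right; apply mul_left_cancel₀ hp0; rw [h']; ring
          · rcases hR with h' | h'
            · right; apply mul_left_cancel₀ hp0; linarith
            · left; apply mul_left_cancel₀ hp0; linarith
        refine ih (e - 1) (by omega) N (S * A) l ?_ ?_ hNd
        · apply hcancel
          rw [← Matrix.mul_assoc A N B, ← hRN, hAR]
        · apply hcancel
          rw [← Matrix.mul_assoc A N, ← hRN, ← Matrix.mul_assoc, ← hRS, ← pow_succ, ← pow_succ']

theorem conj_of_sse {p : ℕ} (hp : p.Prime) (A B : Matrix (Fin 2) (Fin 2) ℕ)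
    (hdet : (A.map (fun x : ℕ => (x : ℤ))).det = p ∨ (A.map (fun x : ℕ => (x : ℤ))).det = -p)
    (h : SSE ⟨2, A⟩ ⟨2, B⟩) : ∃ P : M2, IsUnit P.det ∧
      A.map (fun x : ℕ => (x : ℤ)) * P = P * B.map (fun x : ℕ => (x : ℤ)) := by
  obtain ⟨l, R, S, h1, -, h3, -⟩ := h.se
  change Matrix (Fin 2) (Fin 2) ℕ at R
  change Matrix (Fin 2) (Fin 2) ℕ at S
  change A ^ l = R * S at h1
  change A * R = R * B at h3
  have cast_mul : ∀ X Y : Matrix (Fin 2) (Fin 2) ℕ, (X * Y).map (fun x : ℕ => (x : ℤ)) =
      X.map (fun x : ℕ => (x : ℤ)) * Y.map (fun x : ℕ => (x : ℤ)) := by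
    intro X Y
    ext i j
    simp [Matrix.mul_apply]
  have cast_pow : ∀ (X : Matrix (Fin 2) (Fin 2) ℕ) (n : ℕ),
      (X ^ n).map (fun x : ℕ => (x : ℤ)) = (X.map (fun x : ℕ => (x : ℤ))) ^ n := by
    intro X n
    induction n with
    | zero =>
      ext i j
      fin_cases i <;> fin_cases j <;> simp
    | succ n ih => rw [pow_succ, cast_mul, ih, pow_succ]
  have e1 := congrArg (fun M => Matrix.map M (fun x : ℕ => (x : ℤ))) h1
  have e3 := congrArg (fun M => Matrix.map M (fun x : ℕ => (x : ℤ))) h3
  rw [cast_pow, cast_mul] at e1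
  rw [cast_mul, cast_mul] at e3
  -- determinant of R divides a power of p
  have hd1 : (A.map (fun x : ℕ => (x : ℤ))).det ^ l =
      (R.map (fun x : ℕ => (x : ℤ))).det * (S.map (fun x : ℕ => (x : ℤ))).det := by
    rw [← Matrix.det_pow, e1, Matrix.det_mul]
  have hdvd : (R.map (fun x : ℕ => (x : ℤ))).det ∣ (p : ℤ) ^ l := by
    rcases hdet with h | h
    · rw [h] at hd1; exact ⟨_, hd1⟩
    · rw [h] at hd1
      have : (-(p : ℤ)) ^ l ∣ (p : ℤ) ^ l := by
        rw [neg_pow]
        rcases neg_one_pow_eq_or ℤ l with h | h <;> rw [h] <;> simp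
      exact dvd_trans ⟨_, hd1⟩ this
  have hpz : Prime (p : ℤ) := Nat.prime_iff_prime_int.mp hp
  obtain ⟨e, -, he⟩ := (dvd_prime_pow hpz l).mp hdvd
  have he' : (R.map (fun x : ℕ => (x : ℤ))).det = (p : ℤ) ^ e ∨
      (R.map (fun x : ℕ => (x : ℤ))).det = -(p : ℤ) ^ e := Int.associated_iff.mp he
  exact conj_of_se hpz hdet e _ _ l e3 e1 he'

end Pool.Agent.Q133.SS
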