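import Pool.Agent.Q133.SS.Sim

set_option autoImplicit false

namespace Pool.Agent.Q133.SS

open Matrix

theorem Intw.tr_eq {a b : Q4} {x1 x2 y1 y2 : ℤ} (hI : Intw a b x1 x2 y1 y2)
    (hd : x1 * y2 - x2 * y1 ≠ 0) : a.p + a.u = b.p + b.u := by
  obtain ⟨e11, e12, e21, e22⟩ := hI
  apply mul_left_cancel₀ hd
  linear_combination y2 * e11 - y1 * e12 - x2 * e21 + x1 * e22

theorem Intw.det_eq {a b : Q4} {x1 x2 y1 y2 : ℤ} (hI : Intw a b x1 x2 y1 y2)
    (hd : x1 * y2 - x2 * y1 ≠ 0) : a.p * a.u - a.q * a.s = b.p * b.u - b.q * b.s := by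
  obtain ⟨e11, e12, e21, e22⟩ := hI
  apply mul_left_cancel₀ hd
  have t1 : (x1 * y2 - x2 * y1) * (a.p * a.u - a.q * a.s) =
      (a.p * x1 + a.q * y1) * (a.s * x2 + a.u * y2) -
      (a.p * x2 + a.q * y2) * (a.s * x1 + a.u * y1) := by ring
  rw [t1, e11, e12, e21, e22]; ring

theorem Intw.neg {a b : Q4} {x1 x2 y1 y2 : ℤ} (hI : Intw a b x1 x2 y1 y2) :
    Intw a b (-x1) (-x2) (-y1) (-y2) := by
  obtain ⟨e11, e12, e21, e22⟩ := hI
  constructor <;> linarith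

theorem Intw.inv {a b : Q4} {x1 x2 y1 y2 d : ℤ} (hI : Intw a b x1 x2 y1 y2)
    (hd : x1 * y2 - x2 * y1 = d) :
    Intw b a (d * y2) (-(d * x2)) (-(d * y1)) (d * x1) := by
  subst hd
  obtain ⟨e11, e12, e21, e22⟩ := hI
  constructor
  · linear_combination (-(y2 * y2)) * e11 + (y2 * y1) * e12 + (x2 * y2) * e21 - (x2 * y1) * e22
  · linear_combination (x2 * y2) * e11 - (y2 * x1) * e12 - (x2 * x2) * e21 + (x1 * x2) * e22
  · linear_combination (y1 * y2) * e11 - (y1 * y1) * e12 - (x1 * y2) * e21 + (x1 * y1) * e22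
  · linear_combination (-(x2 * y1)) * e11 + (x1 * y1) * e12 + (x1 * x2) * e21 - (x1 * x1) * e22

theorem pos_case {a b : Q4} (ha : a.Good) (hb : b.Good) (hr : a.Reg) {x1 x2 y1 y2 : ℤ}
    (h1 : 0 ≤ x1) (h2 : 0 ≤ x2) (h3 : 0 ≤ y1) (h4 : 0 ≤ y2)
    (hd : x1 * y2 - x2 * y1 = 1 ∨ x1 * y2 - x2 * y1 = -1) (hI : Intw a b x1 x2 y1 y2) :
    SZ a.C b.C := by
  obtain ⟨n, hn⟩ := posReach (x1 + x2 + y1 + y2).toNat a b x1 x2 y1 y2 h1 h2 h3 h4
    (by omega) hd ha.2.2.1 ha.2.2.2 hb.2.2.1 hb.2.2.2 hI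
  rcases hn with hn | hn
  · exact main_chain n b a hb ha hr hn
  · exact (main_chain n b.sw a hb.sw ha hr hn).trans hb.swC.symm

theorem region {a b : Q4} (ha : a.Good) (hb : b.Good) (hr : a.Reg) {x1 x2 y1 y2 : ℤ}
    (hd : x1 * y2 - x2 * y1 = 1 ∨ x1 * y2 - x2 * y1 = -1) (hI : Intw a b x1 x2 y1 y2) :
    SZ a.C b.C := by
  have hne : x1 * y2 - x2 * y1 ≠ 0 := by rcases hd with h | h <;> rw [h] <;> norm_num
  have hrb : b.Reg := by
    have e1 := hI.tr_eq hne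
    have e2 := hI.det_eq hne
    obtain ⟨r1, r2⟩ := hr
    constructor
    · linarith
    · rw [← e1]; linarith
  have hdd : (x1 * y2 - x2 * y1) * (x1 * y2 - x2 * y1) = 1 := by
    rcases hd with h | h <;> rw [h] <;> norm_num
  have hd' : ((x1 * y2 - x2 * y1) * y2) * ((x1 * y2 - x2 * y1) * x1) -
      (-((x1 * y2 - x2 * y1) * x2)) * (-((x1 * y2 - x2 * y1) * y1)) = 1 ∨
      ((x1 * y2 - x2 * y1) * y2) * ((x1 * y2 - x2 * y1) * x1) -
      (-((x1 * y2 - x2 * y1) * x2)) * (-((x1 * y2 - x2 * y1) * y1)) = -1 := by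
    have e : ((x1 * y2 - x2 * y1) * y2) * ((x1 * y2 - x2 * y1) * x1) -
      (-((x1 * y2 - x2 * y1) * x2)) * (-((x1 * y2 - x2 * y1) * y1)) =
      ((x1 * y2 - x2 * y1) * (x1 * y2 - x2 * y1)) * (x1 * y2 - x2 * y1) := by ring
    rw [e, hdd, one_mul]
    exact hd
  rcases sign_aux rfl hd ha.2.2.1 ha.2.2.2 hb.2.2.1 hb.2.2.2 hI with h | h | h | h
  · exact pos_case ha hb hr h.1 h.2.1 h.2.2.1 h.2.2.2 hd hI
  · refine pos_case ha hb hr (x1 := -x1) (x2 := -x2) (y1 := -y1) (y2 := -y2) (by linarith)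
      (by linarith) (by linarith) (by linarith) ?_ hI.neg
    have e : -x1 * -y2 - -x2 * -y1 = x1 * y2 - x2 * y1 := by ring
    rw [e]; exact hd
  · exact (pos_case hb ha hrb h.1 h.2.1 h.2.2.1 h.2.2.2 hd' (hI.inv rfl)).symm
  · refine (pos_case hb ha hrb (x1 := -((x1 * y2 - x2 * y1) * y2))
      (x2 := -(-((x1 * y2 - x2 * y1) * x2))) (y1 := -(-((x1 * y2 - x2 * y1) * y1)))
      (y2 := -((x1 * y2 - x2 * y1) * x1)) (by linarith [h.1]) (by linarith [h.2.1])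
      (by linarith [h.2.2.1]) (by linarith [h.2.2.2]) ?_ (hI.inv rfl).neg).symm
    have e : -((x1 * y2 - x2 * y1) * y2) * -((x1 * y2 - x2 * y1) * x1) -
      -(-((x1 * y2 - x2 * y1) * x2)) * -(-((x1 * y2 - x2 * y1) * y1)) =
      ((x1 * y2 - x2 * y1) * y2) * ((x1 * y2 - x2 * y1) * x1) -
      (-((x1 * y2 - x2 * y1) * x2)) * (-((x1 * y2 - x2 * y1) * y1)) := by ring
    rw [e]; exact hd'

/-- Two by two matrices over the nonnegative integers with positive off-diagonal entries and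
`-tr² / 4 ≤ det < 0`, conjugate over the integers, are strong shift equivalent. -/
theorem region_nat (A B : Matrix (Fin 2) (Fin 2) ℕ) (hA1 : 0 < A 0 1) (hA2 : 0 < A 1 0)
    (hB1 : 0 < B 0 1) (hB2 : 0 < B 1 0)
    (h1 : A 0 0 * A 1 1 < A 0 1 * A 1 0)
    (h2 : 4 * (A 0 1 * A 1 0) ≤ 4 * (A 0 0 * A 1 1) + (A 0 0 + A 1 1) ^ 2)
    (P : Matrix (Fin 2) (Fin 2) ℤ) (hP : IsUnit P.det)
    (hAB : A.map (fun x : ℕ => (x : ℤ)) * P = P * B.map (fun x : ℕ => (x : ℤ))) :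
    SSE ⟨2, A⟩ ⟨2, B⟩ := by
  set a : Q4 := ⟨A 0 0, A 0 1, A 1 0, A 1 1⟩ with ha
  set b : Q4 := ⟨B 0 0, B 0 1, B 1 0, B 1 1⟩ with hb
  have hag : a.Good := ⟨by simp [ha], by simp [ha], by simp [ha, hA1], by simp [ha, hA2]⟩
  have hbg : b.Good := ⟨by simp [hb], by simp [hb], by simp [hb, hB1], by simp [hb, hB2]⟩
  have hr : a.Reg := by
    constructor
    · simp only [ha]
      have : (A 0 0 : ℤ) * A 1 1 < A 0 1 * A 1 0 := by exact_mod_cast h1
      linarith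
    · simp only [ha]
      have : 4 * ((A 0 1 : ℤ) * A 1 0) ≤ 4 * (A 0 0 * A 1 1) + (A 0 0 + A 1 1) ^ 2 := by
        exact_mod_cast h2
      linarith
  have hd : P 0 0 * P 1 1 - P 0 1 * P 1 0 = 1 ∨ P 0 0 * P 1 1 - P 0 1 * P 1 0 = -1 := by
    rw [← Matrix.det_fin_two]
    exact Int.isUnit_iff.mp hP
  have e : ∀ i j, (A.map (fun x : ℕ => (x : ℤ)) * P) i j =
      (P * B.map (fun x : ℕ => (x : ℤ))) i j := fun i j => by rw [hAB]
  have hI : Intw a b (P 0 0) (P 0 1) (P 1 0) (P 1 1) := by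
    constructor
    · have := e 0 0
      simpa [Matrix.mul_apply, Fin.sum_univ_two] using this
    · have := e 0 1
      simpa [Matrix.mul_apply, Fin.sum_univ_two] using this
    · have := e 1 0
      simpa [Matrix.mul_apply, Fin.sum_univ_two] using this
    · have := e 1 1
      simpa [Matrix.mul_apply, Fin.sum_univ_two] using this
  have h := (region hag hbg hr hd hI).toN
  have c1 : toN a.C = ⟨2, A⟩ := by
    simp only [toN, Q4.C, C2]
    congr 1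
    ext i j
    fin_cases i <;> fin_cases j <;> simp [ha]
  have c2 : toN b.C = ⟨2, B⟩ := by
    simp only [toN, Q4.C, C2]
    congr 1
    ext i j
    fin_cases i <;> fin_cases j <;> simp [hb]
  rw [c1, c2] at h
  exact h

end Pool.Agent.Q133.SS
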