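import Pool.Agent.Q133.SS.Chain

set_option autoImplicit false

namespace Pool.Agent.Q133.SS

open Matrix

/-- `a P = P b` for `P = [[x1, x2], [y1, y2]]` -/
structure Intw (a b : Q4) (x1 x2 y1 y2 : ℤ) : Prop where
  e11 : a.p * x1 + a.q * y1 = x1 * b.p + x2 * b.s
  e12 : a.p * x2 + a.q * y2 = x1 * b.q + x2 * b.u
  e21 : a.s * x1 + a.u * y1 = y1 * b.p + y2 * b.s
  e22 : a.s * x2 + a.u * y2 = y1 * b.q + y2 * b.u

theorem posReach : ∀ (N : ℕ) (a b : Q4) (x1 x2 y1 y2 : ℤ), 0 ≤ x1 → 0 ≤ x2 → 0 ≤ y1 → 0 ≤ y2 →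
    x1 + x2 + y1 + y2 ≤ N → (x1 * y2 - x2 * y1 = 1 ∨ x1 * y2 - x2 * y1 = -1) →
    0 < a.q → 0 < a.s → 0 < b.q → 0 < b.s → Intw a b x1 x2 y1 y2 →
    ∃ n, Reach b n a ∨ Reach b.sw n a := by
  intro N
  induction N with
  | zero =>
    intro a b x1 x2 y1 y2 h1 h2 h3 h4 hN hd
    exfalso
    push_cast at hN
    have e1 : x1 = 0 := by linarith
    have e2 : x2 = 0 := by linarith
    rw [e1, e2] at hd
    omega
  | succ N ih =>
    intro a b x1 x2 y1 y2 h1 h2 h3 h4 hN hd haq has hbq hbs hI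
    push_cast at hN
    obtain ⟨e11, e12, e21, e22⟩ := hI
    by_cases hA : x1 ≤ y1 ∧ x2 ≤ y2
    · obtain ⟨hA1, hA2⟩ := hA
      have hpos : 1 ≤ x1 + x2 := by
        by_contra hh
        have e1 : x1 = 0 := by linarith
        have e2 : x2 = 0 := by linarith
        rw [e1, e2] at hd
        omega
      have f11 : a.L.p * x1 + a.L.q * (y1 - x1) = x1 * b.p + x2 * b.s := by
        simp only [Q4.L]; linarith
      have f12 : a.L.p * x2 + a.L.q * (y2 - x2) = x1 * b.q + x2 * b.u := by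
        simp only [Q4.L]; linarith
      have f21 : a.L.s * x1 + a.L.u * (y1 - x1) = (y1 - x1) * b.p + (y2 - x2) * b.s := by
        simp only [Q4.L]; linarith
      have f22 : a.L.s * x2 + a.L.u * (y2 - x2) = (y1 - x1) * b.q + (y2 - x2) * b.u := by
        simp only [Q4.L]; linarith
      have hs : 0 < a.L.s := by
        by_contra hh
        push Not at hh
        have hup : a.L.u - a.L.p < 0 := by
          simp only [Q4.L] at hh ⊢; linarith
        have hq : 0 < a.L.q := haq
        rcases hd with hd | hd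
        · have g1 : x1 * (a.L.s * x1 + a.L.u * (y1 - x1)) -
              (y1 - x1) * (a.L.p * x1 + a.L.q * (y1 - x1)) = b.s := by
            rw [f21, f11]
            have : x1 * ((y1 - x1) * b.p + (y2 - x2) * b.s) -
              (y1 - x1) * (x1 * b.p + x2 * b.s) = (x1 * y2 - x2 * y1) * b.s := by ring
            rw [this, hd, one_mul]
          have g2 : 0 ≤ x1 * x1 * (-a.L.s) := mul_nonneg (mul_nonneg h1 h1) (by linarith)
          have g3 : 0 ≤ x1 * (y1 - x1) * (a.L.p - a.L.u) :=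
            mul_nonneg (mul_nonneg h1 (by linarith)) (by linarith)
          have g4 : 0 ≤ (y1 - x1) * (y1 - x1) * a.L.q := mul_nonneg (mul_self_nonneg _) hq.le
          nlinarith
        · have g1 : x2 * (a.L.s * x2 + a.L.u * (y2 - x2)) -
              (y2 - x2) * (a.L.p * x2 + a.L.q * (y2 - x2)) = b.q := by
            rw [f22, f12]
            have : x2 * ((y1 - x1) * b.q + (y2 - x2) * b.u) -
              (y2 - x2) * (x1 * b.q + x2 * b.u) = -(x1 * y2 - x2 * y1) * b.q := by ring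
            rw [this, hd]; ring
          have g2 : 0 ≤ x2 * x2 * (-a.L.s) := mul_nonneg (mul_nonneg h2 h2) (by linarith)
          have g3 : 0 ≤ x2 * (y2 - x2) * (a.L.p - a.L.u) :=
            mul_nonneg (mul_nonneg h2 (by linarith)) (by linarith)
          have g4 : 0 ≤ (y2 - x2) * (y2 - x2) * a.L.q := mul_nonneg (mul_self_nonneg _) hq.le
          nlinarith
      have hd' : x1 * (y2 - x2) - x2 * (y1 - x1) = 1 ∨ x1 * (y2 - x2) - x2 * (y1 - x1) = -1 := by
        have : x1 * (y2 - x2) - x2 * (y1 - x1) = x1 * y2 - x2 * y1 := by ring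
        rw [this]; exact hd
      obtain ⟨n, hn⟩ := ih a.L b x1 x2 (y1 - x1) (y2 - x2) h1 h2 (by linarith) (by linarith)
        (by linarith) hd' haq hs hbq hbs ⟨f11, f12, f21, f22⟩
      rcases hn with hn | hn
      · exact ⟨n + 1, Or.inl (Reach.L hs hn)⟩
      · exact ⟨n + 1, Or.inr (Reach.L hs hn)⟩
    · by_cases hB : y1 ≤ x1 ∧ y2 ≤ x2
      · obtain ⟨hB1, hB2⟩ := hB
        have hpos : 1 ≤ y1 + y2 := by
          by_contra hh
          have e1 : y1 = 0 := by linarith
          have e2 : y2 = 0 := by linarith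
          rw [e1, e2] at hd
          omega
        have f11 : a.R.p * (x1 - y1) + a.R.q * y1 = (x1 - y1) * b.p + (x2 - y2) * b.s := by
          simp only [Q4.R]; linarith
        have f12 : a.R.p * (x2 - y2) + a.R.q * y2 = (x1 - y1) * b.q + (x2 - y2) * b.u := by
          simp only [Q4.R]; linarith
        have f21 : a.R.s * (x1 - y1) + a.R.u * y1 = y1 * b.p + y2 * b.s := by
          simp only [Q4.R]; linarith
        have f22 : a.R.s * (x2 - y2) + a.R.u * y2 = y1 * b.q + y2 * b.u := by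
          simp only [Q4.R]; linarith
        have hq : 0 < a.R.q := by
          by_contra hh
          push Not at hh
          have hup : 0 < a.R.u - a.R.p := by
            simp only [Q4.R] at hh ⊢; linarith
          have hs : 0 < a.R.s := has
          rcases hd with hd | hd
          · have g1 : (x2 - y2) * (a.R.s * (x2 - y2) + a.R.u * y2) -
                y2 * (a.R.p * (x2 - y2) + a.R.q * y2) = -b.q := by
              rw [f22, f12]
              have : (x2 - y2) * (y1 * b.q + y2 * b.u) -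
                y2 * ((x1 - y1) * b.q + (x2 - y2) * b.u) = -(x1 * y2 - x2 * y1) * b.q := by ring
              rw [this, hd]; ring
            have g2 : 0 ≤ (x2 - y2) * (x2 - y2) * a.R.s := mul_nonneg (mul_self_nonneg _) hs.le
            have g3 : 0 ≤ (x2 - y2) * y2 * (a.R.u - a.R.p) :=
              mul_nonneg (mul_nonneg (by linarith) h4) (by linarith)
            have g4 : 0 ≤ y2 * y2 * (-a.R.q) := mul_nonneg (mul_nonneg h4 h4) (by linarith)
            nlinarith
          · have g1 : (x1 - y1) * (a.R.s * (x1 - y1) + a.R.u * y1) -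
                y1 * (a.R.p * (x1 - y1) + a.R.q * y1) = -b.s := by
              rw [f21, f11]
              have : (x1 - y1) * (y1 * b.p + y2 * b.s) -
                y1 * ((x1 - y1) * b.p + (x2 - y2) * b.s) = (x1 * y2 - x2 * y1) * b.s := by ring
              rw [this, hd]; ring
            have g2 : 0 ≤ (x1 - y1) * (x1 - y1) * a.R.s := mul_nonneg (mul_self_nonneg _) hs.le
            have g3 : 0 ≤ (x1 - y1) * y1 * (a.R.u - a.R.p) :=
              mul_nonneg (mul_nonneg (by linarith) h3) (by linarith)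
            have g4 : 0 ≤ y1 * y1 * (-a.R.q) := mul_nonneg (mul_nonneg h3 h3) (by linarith)
            nlinarith
        have hd' : (x1 - y1) * y2 - (x2 - y2) * y1 = 1 ∨ (x1 - y1) * y2 - (x2 - y2) * y1 = -1 := by
          have : (x1 - y1) * y2 - (x2 - y2) * y1 = x1 * y2 - x2 * y1 := by ring
          rw [this]; exact hd
        obtain ⟨n, hn⟩ := ih a.R b (x1 - y1) (x2 - y2) y1 y2 (by linarith) (by linarith) h3 h4
          (by linarith) hd' hq has hbq hbs ⟨f11, f12, f21, f22⟩
        rcases hn with hn | hn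
        · exact ⟨n + 1, Or.inl (Reach.R hq hn)⟩
        · exact ⟨n + 1, Or.inr (Reach.R hq hn)⟩
      · have hC : (y1 < x1 ∧ x2 < y2) ∨ (y2 < x2 ∧ x1 < y1) := by
          rcases lt_or_ge y1 x1 with k1 | k1
          · rcases lt_or_ge x2 y2 with k2 | k2
            · exact Or.inl ⟨k1, k2⟩
            · exact absurd ⟨k1.le, k2⟩ hB
          · rcases lt_or_ge y2 x2 with k2 | k2
            · rcases lt_or_ge x1 y1 with k3 | k3
              · exact Or.inr ⟨k2, k3⟩
              · exact absurd ⟨k3, k2.le⟩ hB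
            · exact absurd ⟨k1, k2⟩ hA
        refine ⟨0, ?_⟩
        rcases hC with ⟨k1, k2⟩ | ⟨k1, k2⟩
        · have m1 : (y1 + 1) * (x2 + 1) ≤ x1 * y2 :=
            mul_le_mul (by linarith) (by linarith) (by linarith) h1
          have z1 : x2 = 0 := by rcases hd with hd | hd <;> nlinarith
          have z2 : y1 = 0 := by rcases hd with hd | hd <;> nlinarith
          rw [z1, z2] at hd
          have hxy : x1 * y2 = 1 := by
            rcases hd with hd | hd
            · linarith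
            · have : 0 ≤ x1 * y2 := mul_nonneg h1 h4
              linarith
          have hx : x1 = 1 := by
            have := Int.eq_one_or_neg_one_of_mul_eq_one hxy
            omega
          have hy : y2 = 1 := by rw [hx] at hxy; linarith
          subst hx hy z1 z2
          left
          have : a = b := by
            obtain ⟨p, q, s, u⟩ := a
            obtain ⟨p', q', s', u'⟩ := b
            simp only [Q4.mk.injEq] at *
            refine ⟨?_, ?_, ?_, ?_⟩ <;> linarith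
          rw [this]
          exact Reach.refl
        · have m1 : (y2 + 1) * (x1 + 1) ≤ x2 * y1 :=
            mul_le_mul (by linarith) (by linarith) (by linarith) h2
          have z1 : x1 = 0 := by rcases hd with hd | hd <;> nlinarith
          have z2 : y2 = 0 := by rcases hd with hd | hd <;> nlinarith
          rw [z1, z2] at hd
          have hxy : x2 * y1 = 1 := by
            rcases hd with hd | hd
            · have : 0 ≤ x2 * y1 := mul_nonneg h2 h3
              linarith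
            · linarith
          have hx : x2 = 1 := by
            have := Int.eq_one_or_neg_one_of_mul_eq_one hxy
            omega
          have hy : y1 = 1 := by rw [hx] at hxy; linarith
          subst hx hy z1 z2
          right
          have : a = b.sw := by
            obtain ⟨p, q, s, u⟩ := a
            obtain ⟨p', q', s', u'⟩ := b
            simp only [Q4.sw, Q4.mk.injEq] at *
            refine ⟨?_, ?_, ?_, ?_⟩ <;> linarith
          rw [this]
          exact Reach.refl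

theorem exists_root {p q s u : ℝ} (hq : 0 < q) (hs : 0 < s) :
    ∃ l : ℝ, p < l ∧ u < l ∧ (l - p) * (l - u) = q * s := by
  have hqs : 0 < q * s := mul_pos hq hs
  set w := Real.sqrt ((p - u) ^ 2 + 4 * (q * s)) with hw
  have hw2 : w * w = (p - u) ^ 2 + 4 * (q * s) := Real.mul_self_sqrt (by positivity)
  have hw0 : 0 ≤ w := Real.sqrt_nonneg _
  have h1 : |p - u| < w := by
    apply abs_lt_of_sq_lt_sq _ hw0
    nlinarith
  obtain ⟨h2, h3⟩ := abs_lt.mp h1
  refine ⟨(p + u + w) / 2, by linarith, by linarith, ?_⟩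
  nlinarith

theorem sign_int (X1 X2 Y1 Y2 d : ℤ) (hd1 : d = 1 ∨ d = -1) (hdd : X1 * Y2 - X2 * Y1 = d)
    (n1 : ¬ (X1 ≤ 0 ∧ Y1 ≤ 0)) (n2 : ¬ (X2 ≤ 0 ∧ Y2 ≤ 0)) (n3 : ¬ (X1 ≤ 0 ∧ X2 ≤ 0))
    (n4 : ¬ (Y1 ≤ 0 ∧ Y2 ≤ 0)) (n5 : ¬ (d * Y2 ≤ 0 ∧ -(d * Y1) ≤ 0))
    (n6 : ¬ (d * X1 ≤ 0 ∧ -(d * X2) ≤ 0)) (n7 : ¬ (d * Y2 ≤ 0 ∧ -(d * X2) ≤ 0))
    (n8 : ¬ (d * X1 ≤ 0 ∧ -(d * Y1) ≤ 0)) :
    (0 ≤ X1 ∧ 0 ≤ X2 ∧ 0 ≤ Y1 ∧ 0 ≤ Y2) ∨
      (0 ≤ d * Y2 ∧ 0 ≤ -(d * X2) ∧ 0 ≤ -(d * Y1) ∧ 0 ≤ d * X1) := by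
  rcases hd1 with h | h
  · subst h
    simp only [one_mul] at *
    have hX1 : 0 < X1 := by omega
    have hY2 : 0 < Y2 := by omega
    have hm : 0 < X1 * Y2 := mul_pos hX1 hY2
    have h0 : 0 ≤ X2 * Y1 := by linarith
    rcases mul_nonneg_iff.mp h0 with ⟨k1, k2⟩ | ⟨k1, k2⟩
    · left; omega
    · right; omega
  · subst h
    have e1 : (-1 : ℤ) * Y2 = -Y2 := by ring
    have e2 : (-1 : ℤ) * X2 = -X2 := by ring
    have e3 : (-1 : ℤ) * Y1 = -Y1 := by ring
    have e4 : (-1 : ℤ) * X1 = -X1 := by ring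
    rw [e1, e2, e3, e4] at *
    have hX1 : 0 < X2 := by omega
    have hY2 : 0 < Y1 := by omega
    have hm : 0 < X2 * Y1 := mul_pos hX1 hY2
    have h0 : 0 ≤ X1 * Y2 := by linarith
    rcases mul_nonneg_iff.mp h0 with ⟨k1, k2⟩ | ⟨k1, k2⟩
    · left; omega
    · right; omega

theorem sign_aux {a b : Q4} {x1 x2 y1 y2 d : ℤ} (hd : x1 * y2 - x2 * y1 = d)
    (hd1 : d = 1 ∨ d = -1) (haq : 0 < a.q) (has : 0 < a.s) (hbq : 0 < b.q) (hbs : 0 < b.s)
    (hI : Intw a b x1 x2 y1 y2) :
    (0 ≤ x1 ∧ 0 ≤ x2 ∧ 0 ≤ y1 ∧ 0 ≤ y2) ∨ (x1 ≤ 0 ∧ x2 ≤ 0 ∧ y1 ≤ 0 ∧ y2 ≤ 0) ∨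
    (0 ≤ d * y2 ∧ 0 ≤ -(d * x2) ∧ 0 ≤ -(d * y1) ∧ 0 ≤ d * x1) ∨
    (d * y2 ≤ 0 ∧ -(d * x2) ≤ 0 ∧ -(d * y1) ≤ 0 ∧ d * x1 ≤ 0) := by
  obtain ⟨e11, e12, e21, e22⟩ := hI
  have hdne : d ≠ 0 := by rcases hd1 with h | h <;> rw [h] <;> norm_num
  have htr : a.p + a.u = b.p + b.u := by
    have h1 : d * (a.p + a.u) = d * (b.p + b.u) := by
      have t1 : d * a.p = (a.p * x1 + a.q * y1) * y2 - (a.p * x2 + a.q * y2) * y1 := by
        rw [← hd]; ring
      have t2 : d * a.u = (a.s * x2 + a.u * y2) * x1 - (a.s * x1 + a.u * y1) * x2 := by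
        rw [← hd]; ring
      rw [mul_add, t1, t2, e11, e12, e21, e22, ← hd]; ring
    exact mul_left_cancel₀ hdne h1
  have hdt : a.p * a.u - a.q * a.s = b.p * b.u - b.q * b.s := by
    have h1 : d * (a.p * a.u - a.q * a.s) = d * (b.p * b.u - b.q * b.s) := by
      have t1 : d * (a.p * a.u - a.q * a.s) =
          (a.p * x1 + a.q * y1) * (a.s * x2 + a.u * y2) -
          (a.p * x2 + a.q * y2) * (a.s * x1 + a.u * y1) := by
        rw [← hd]; ring
      rw [t1, e11, e12, e21, e22, ← hd]; ring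
    exact mul_left_cancel₀ hdne h1
  have haq' : (0 : ℝ) < a.q := by exact_mod_cast haq
  have has' : (0 : ℝ) < a.s := by exact_mod_cast has
  have hbq' : (0 : ℝ) < b.q := by exact_mod_cast hbq
  have hbs' : (0 : ℝ) < b.s := by exact_mod_cast hbs
  obtain ⟨l, hl1, hl2, hl3⟩ := exists_root (p := (a.p : ℝ)) (u := (a.u : ℝ)) haq' has'
  have htr' : (a.p : ℝ) + a.u = b.p + b.u := by exact_mod_cast htr
  have hdt' : (a.p : ℝ) * a.u - a.q * a.s = b.p * b.u - b.q * b.s := by exact_mod_cast hdt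
  have hd' : (x1 : ℝ) * y2 - x2 * y1 = d := by exact_mod_cast hd
  have E11 : (a.p : ℝ) * x1 + a.q * y1 = x1 * b.p + x2 * b.s := by exact_mod_cast e11
  have E12 : (a.p : ℝ) * x2 + a.q * y2 = x1 * b.q + x2 * b.u := by exact_mod_cast e12
  have E21 : (a.s : ℝ) * x1 + a.u * y1 = y1 * b.p + y2 * b.s := by exact_mod_cast e21
  have E22 : (a.s : ℝ) * x2 + a.u * y2 = y1 * b.q + y2 * b.u := by exact_mod_cast e22
  have hl4 : (l - b.p) * (l - b.u) = b.q * b.s := by
    have hu : (b.u : ℝ) = a.p + a.u - b.p := by linarith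
    rw [hu] at hdt' ⊢
    nlinarith
  have hsum : 0 < (l - b.p) + (l - b.u) := by linarith
  have hprod : 0 < (l - b.p) * (l - b.u) := by rw [hl4]; positivity
  have hlb1 : 0 < l - b.p := by
    by_contra hh
    push Not at hh
    have : 0 < l - b.u := by linarith
    nlinarith
  have hla : 0 < l - a.p := by linarith
  -- the left eigenvector on the columns
  have F12 : (b.s : ℝ) * (a.s * x2 + (l - a.p) * y2) = (l - b.p) * (a.s * x1 + (l - a.p) * y1) := by
    have key : (a.s : ℝ) * (a.p * x1 + a.q * y1) + (l - a.p) * (a.s * x1 + a.u * y1) =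
        l * (a.s * x1 + (l - a.p) * y1) := by
      have : (l - a.p) * (a.u : ℝ) * y1 = (l - a.p) * l * y1 - a.q * a.s * y1 := by
        rw [← hl3]; ring
      nlinarith
    rw [E11, E21] at key
    nlinarith
  have Z12 : (a.q : ℝ) * (y1 * b.q + y2 * (l - b.p)) = (l - a.p) * (x1 * b.q + x2 * (l - b.p)) := by
    have key : (a.p : ℝ) * (x1 * b.q + x2 * (l - b.p)) + a.q * (y1 * b.q + y2 * (l - b.p)) =
        l * (x1 * b.q + x2 * (l - b.p)) := by
      have t1 : (a.p : ℝ) * (x1 * b.q + x2 * (l - b.p)) + a.q * (y1 * b.q + y2 * (l - b.p)) =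
          b.q * (a.p * x1 + a.q * y1) + (l - b.p) * (a.p * x2 + a.q * y2) := by ring
      rw [t1, E11, E12]
      have : (l - b.p) * (b.u : ℝ) * x2 = (l - b.p) * l * x2 - b.q * b.s * x2 := by
        rw [← hl4]; ring
      nlinarith
    linarith
  set F1 : ℝ := a.s * x1 + (l - a.p) * y1 with hF1
  set F2 : ℝ := a.s * x2 + (l - a.p) * y2 with hF2
  set z1 : ℝ := x1 * b.q + x2 * (l - b.p) with hz1
  set z2 : ℝ := y1 * b.q + y2 * (l - b.p) with hz2
  have hFz : a.s * z1 + (l - a.p) * z2 = F1 * b.q + F2 * (l - b.p) := by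
    rw [hz1, hz2, hF1, hF2]; ring
  have hFne : F1 ≠ 0 := by
    intro h0
    have h1 : F2 = 0 := by
      have : (b.s : ℝ) * F2 = 0 := by rw [F12, h0, mul_zero]
      rcases mul_eq_zero.mp this with h | h
      · exact absurd h hbs'.ne'
      · exact h
    have h2 : (a.s : ℝ) * d = 0 := by
      have : (a.s : ℝ) * d = y2 * F1 - y1 * F2 := by rw [hF1, hF2, ← hd']; ring
      rw [this, h0, h1]; ring
    rcases mul_eq_zero.mp h2 with h | h
    · exact has'.ne' h
    · exact hdne (by exact_mod_cast h)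
  -- the same for the inverse
  set K1 : ℝ := d * (b.s * y2 - (l - b.p) * y1) with hK1
  set K2 : ℝ := d * ((l - b.p) * x1 - b.s * x2) with hK2
  set M1 : ℝ := d * (y2 * a.q - x2 * (l - a.p)) with hM1
  set M2 : ℝ := d * (x1 * (l - a.p) - y1 * a.q) with hM2
  have hdd : (d : ℝ) * d = 1 := by rcases hd1 with h | h <;> rw [h] <;> norm_num
  have hK12 : (l - a.p) * K1 = a.s * K2 := by
    have : (l - a.p) * (b.s * y2 - (l - b.p) * y1) = a.s * ((l - b.p) * x1 - b.s * x2) := by
      rw [hF1, hF2] at F12; linarith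
    rw [hK1, hK2]
    linear_combination (d : ℝ) * this
  have hM12 : (b.q : ℝ) * M2 = (l - b.p) * M1 := by
    have : (b.q : ℝ) * (x1 * (l - a.p) - y1 * a.q) = (l - b.p) * (y2 * a.q - x2 * (l - a.p)) := by
      rw [hz1, hz2] at Z12; linarith
    rw [hM1, hM2]
    linear_combination (d : ℝ) * this
  have hK3 : x1 * K1 + y1 * K2 = b.s := by
    rw [hK1, hK2]
    linear_combination (d : ℝ) * b.s * hd' + b.s * hdd
  have hM3 : x1 * M1 + x2 * M2 = a.q := by
    rw [hM1, hM2]
    linear_combination (d : ℝ) * a.q * hd' + a.q * hdd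
  have hK4 : K1 * F1 = a.s * b.s := by
    rw [hF1]
    linear_combination (a.s : ℝ) * hK3 + y1 * hK12
  have hM4 : M1 * z1 = b.q * a.q := by
    rw [hz1]
    linear_combination (b.q : ℝ) * hM3 - x2 * hM12
  have neg_of (c1 c2 : ℝ) (v w : ℤ) (h1 : 0 < c1) (h2 : 0 < c2)
      (h : 0 < c1 * v + c2 * w) : ¬ (v ≤ 0 ∧ w ≤ 0) := by
    rintro ⟨k1, k2⟩
    have k1' : (v : ℝ) ≤ 0 := by exact_mod_cast k1
    have k2' : (w : ℝ) ≤ 0 := by exact_mod_cast k2
    nlinarith
  have core : ∀ (t : ℤ), t = 1 ∨ t = -1 → 0 < (t : ℝ) * F1 →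
      (0 ≤ t * x1 ∧ 0 ≤ t * x2 ∧ 0 ≤ t * y1 ∧ 0 ≤ t * y2) ∨
      (0 ≤ t * (d * y2) ∧ 0 ≤ t * -(d * x2) ∧ 0 ≤ t * -(d * y1) ∧ 0 ≤ t * (d * x1)) := by
    intro t ht hF
    have htt : (t : ℝ) * t = 1 := by rcases ht with h | h <;> rw [h] <;> norm_num
    have hG2 : 0 < (t : ℝ) * F2 := by
      have : (b.s : ℝ) * (t * F2) = (l - b.p) * (t * F1) := by linear_combination (t : ℝ) * F12
      have h3 : 0 < (b.s : ℝ) * (t * F2) := by rw [this]; positivity
      exact (mul_pos_iff_of_pos_left hbs').mp h3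
    have hz : 0 < (t : ℝ) * z1 := by
      have h3 : (a.q : ℝ) * (a.s * (t * z1) + (l - a.p) * (t * z2)) =
          (a.q * a.s + (l - a.p) * (l - a.p)) * (t * z1) := by
        linear_combination (l - a.p) * t * Z12
      have h4 : 0 < (a.q : ℝ) * (a.s * (t * z1) + (l - a.p) * (t * z2)) := by
        have : a.s * (t * z1) + (l - a.p) * (t * z2) = (t * F1) * b.q + (t * F2) * (l - b.p) := by
          linear_combination (t : ℝ) * hFz
        rw [this]; positivity
      rw [h3] at h4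
      have h5 : 0 < (a.q : ℝ) * a.s + (l - a.p) * (l - a.p) := by positivity
      exact (mul_pos_iff_of_pos_left h5).mp h4
    have hz' : 0 < (t : ℝ) * z2 := by
      have : (a.q : ℝ) * (t * z2) = (l - a.p) * (t * z1) := by linear_combination (t : ℝ) * Z12
      have h3 : 0 < (a.q : ℝ) * (t * z2) := by rw [this]; positivity
      exact (mul_pos_iff_of_pos_left haq').mp h3
    have hKp : 0 < (t : ℝ) * K1 := by
      have h3 : ((t : ℝ) * K1) * (t * F1) = a.s * b.s := by
        linear_combination hK4 + K1 * F1 * htt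
      have h4 : 0 < ((t : ℝ) * K1) * (t * F1) := by rw [h3]; positivity
      exact (pos_iff_pos_of_mul_pos h4).mpr hF
    have hKp' : 0 < (t : ℝ) * K2 := by
      have : (a.s : ℝ) * (t * K2) = (l - a.p) * (t * K1) := by linear_combination -(t : ℝ) * hK12
      have h3 : 0 < (a.s : ℝ) * (t * K2) := by rw [this]; positivity
      exact (mul_pos_iff_of_pos_left has').mp h3
    have hMp : 0 < (t : ℝ) * M1 := by
      have h3 : ((t : ℝ) * M1) * (t * z1) = b.q * a.q := by
        linear_combination hM4 + M1 * z1 * htt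
      have h4 : 0 < ((t : ℝ) * M1) * (t * z1) := by rw [h3]; positivity
      exact (pos_iff_pos_of_mul_pos h4).mpr hz
    have hMp' : 0 < (t : ℝ) * M2 := by
      have : (b.q : ℝ) * (t * M2) = (l - b.p) * (t * M1) := by linear_combination (t : ℝ) * hM12
      have h3 : 0 < (b.q : ℝ) * (t * M2) := by rw [this]; positivity
      exact (mul_pos_iff_of_pos_left hbq').mp h3
    have n1 := neg_of a.s (l - a.p) (t * x1) (t * y1) has' hla (by
      push_cast; rw [hF1] at hF; linarith)
    have n2 := neg_of a.s (l - a.p) (t * x2) (t * y2) has' hla (by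
      push_cast; rw [hF2] at hG2; linarith)
    have n3 := neg_of b.q (l - b.p) (t * x1) (t * x2) hbq' hlb1 (by
      push_cast; rw [hz1] at hz; linarith)
    have n4 := neg_of b.q (l - b.p) (t * y1) (t * y2) hbq' hlb1 (by
      push_cast; rw [hz2] at hz'; linarith)
    have n5 := neg_of b.s (l - b.p) (t * (d * y2)) (t * -(d * y1)) hbs' hlb1 (by
      push_cast; rw [hK1] at hKp; linarith)
    have n6 := neg_of (l - b.p) b.s (t * (d * x1)) (t * -(d * x2)) hlb1 hbs' (by
      push_cast; rw [hK2] at hKp'; linarith)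
    have n7 := neg_of a.q (l - a.p) (t * (d * y2)) (t * -(d * x2)) haq' hla (by
      push_cast; rw [hM1] at hMp; linarith)
    have n8 := neg_of (l - a.p) a.q (t * (d * x1)) (t * -(d * y1)) hla haq' (by
      push_cast; rw [hM2] at hMp'; linarith)
    clear hF hG2 hz hz' hKp hKp' hMp hMp'
    have hdd2 : (t * x1) * (t * y2) - (t * x2) * (t * y1) = d := by
      rcases ht with h | h <;> rw [h] <;> linarith
    have g1 : t * (d * y2) = d * (t * y2) := by ring
    have g2 : t * -(d * x2) = -(d * (t * x2)) := by ring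
    have g3 : t * -(d * y1) = -(d * (t * y1)) := by ring
    have g4 : t * (d * x1) = d * (t * x1) := by ring
    rw [g1, g3] at n5
    rw [g4, g2] at n6
    rw [g1, g2] at n7
    rw [g4, g3] at n8
    rw [g1, g2, g3, g4]
    exact sign_int _ _ _ _ _ hd1 hdd2 n1 n2 n3 n4 n5 n6 n7 n8
  rcases lt_or_gt_of_ne hFne with h | h
  · have := core (-1) (Or.inr rfl) (by push_cast; linarith)
    rcases this with ⟨k1, k2, k3, k4⟩ | ⟨k1, k2, k3, k4⟩
    · right; left
      refine ⟨?_, ?_, ?_, ?_⟩ <;> linarith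
    · right; right; right
      refine ⟨?_, ?_, ?_, ?_⟩ <;> linarith
  · have := core 1 (Or.inl rfl) (by push_cast; linarith)
    rcases this with ⟨k1, k2, k3, k4⟩ | ⟨k1, k2, k3, k4⟩
    · left
      refine ⟨?_, ?_, ?_, ?_⟩ <;> linarith
    · right; right; left
      refine ⟨?_, ?_, ?_, ?_⟩ <;> linarith

end Pool.Agent.Q133.SS
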