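import Pool.Agent.Q133.SS.Ops

set_option autoImplicit false
set_option maxRecDepth 100000

namespace Pool.Agent.Q133.SS

def ops4 : List (List ℕ) :=
  [[4,0,1,0],[5,1,0,0,2],[5,3,0,0,1,1],[0,1,0,3],[0,2,1,1],[1,0,3,3],[0,3,2,1],[0,2,0,1],[0,4,2,1],[0,3,4,1],[3,0,2],[7,0,3],[4,1,0,0,0,1],[0,2,1,1],[0,0,2,1],[1,2,4,2],[1,4,2,2],[0,2,3,1],[0,3,1,1],[1,1,4,2],[0,4,3,1],[0,0,1,1],[1,1,2,7],[6,1,3],[6,0,1],[6,1,2],[11,1,0]]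

theorem sse4 : SSE ⟨2, toM 2 2 [[1,4],[3,1]]⟩ ⟨2, toM 2 2 [[1,12],[1,1]]⟩ :=
  run_spec ops4 _ _ _ _ (by decide +kernel)

def ops5 : List (List ℕ) :=
  [[5,0,1,1],[5,1,0,0,2],[4,3,0,0,1,0],[1,4,0,1],[2,0,2],[0,0,3,1],[1,0,4,1],[1,2,0,1],[2,4,2],[2,0,2],[2,4,2],[1,4,1,1],[1,3,0,1],[1,4,3,1],[1,4,2,1],[1,4,1,1],[1,3,2,1],[0,2,0,1],[1,0,1,1],[0,1,2,1],[1,3,4,1],[0,1,4,1],[7,1,4],[4,3,0,0,1,0],[3,4,2],[1,1,4,1],[1,0,1,1],[0,1,2,1],[0,2,3,1],[1,2,4,1],[0,4,1,1],[0,0,2,1],[3,0,2],[1,1,0,1],[0,1,3,1],[3,1,2],[1,4,1,1],[1,2,4,1],[1,3,2,1],[1,2,1,1],[0,1,3,1],[3,3,2],[1,3,4,1],[0,1,4,1],[2,1,2],[0,4,1,1],[1,1,0,1],[6,1,3],[5,3,0,0,1,0],[1,1,3,1],[2,0,2],[1,0,4,1],[0,4,1,1],[0,4,1,1],[0,1,4,1],[2,4,2],[1,4,2,1],[1,2,3,1],[0,3,1,1],[0,3,1,1],[1,1,2,1],[1,0,3,1],[1,4,0,1],[0,3,2,1],[2,3,2],[2,3,2],[0,3,4,1],[7,3,4],[7,0,2],[7,1,2]]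

theorem sse5 : SSE ⟨2, toM 2 2 [[1,5],[4,1]]⟩ ⟨2, toM 2 2 [[1,20],[1,1]]⟩ :=
  run_spec ops5 _ _ _ _ (by decide +kernel)

def ops6 : List (List ℕ) :=
  [[4,0,1,1],[4,1,1,1,1],[7,0,1],[5,0,1,2,2],[5,1,1,0,1,0],[1,0,1,1],[1,3,0,1],[1,0,3,1],[1,3,0,1],[1,2,0,1],[0,0,4,1],[3,2,2],[3,3,2],[1,1,3,1],[1,4,1,1],[0,3,0,1],[0,1,3,1],[0,2,1,1],[0,2,1,1],[0,0,1,1],[0,0,1,1],[0,0,1,1],[0,4,0,1],[1,0,3,1],[2,4,2],[3,0,2],[1,4,0,1],[3,0,2],[0,0,2,1],[0,2,4,1],[1,4,0,1],[1,4,0,1],[1,4,0,1],[7,0,3],[5,2,0,0,0,1],[1,3,0,1],[0,0,1,1],[1,1,3,1],[1,3,2,1],[1,3,2,1],[1,0,3,1],[0,3,4,1],[3,1,2],[1,1,2,1],[1,4,2,1],[1,1,2,1],[1,4,2,1],[1,1,2,1],[1,4,2,1],[0,2,3,1],[2,3,2],[2,1,2],[0,0,1,1],[0,2,4,1],[0,3,1,1],[0,0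,3,1],[1,1,0,1],[0,2,4,1],[1,1,4,1],[1,1,4,1],[2,2,2],[2,0,2],[0,4,0,1],[0,2,4,1],[7,2,4],[5,0,0,1,0,1],[3,4,2],[1,1,4,1],[1,2,1,1],[0,4,2,1],[3,1,2],[1,2,1,1],[0,1,3,1],[0,4,0,1],[0,0,4,1],[0,2,0,1],[0,2,0,1],[0,3,2,1],[0,1,2,1],[1,2,4,1],[1,2,4,1],[3,3,2],[0,3,2,1],[1,2,4,1],[1,2,1,1],[1,0,2,1],[1,4,2,1],[0,2,3,1],[0,3,0,1],[1,0,1,1],[0,1,3,1],[0,4,0,1],[3,0,2],[1,0,2,1],[1,0,1,1],[1,0,2,1],[0,2,4,1],[1,0,1,1],[1,0,2,1],[1,0,1,1],[1,0,1,1],[3,3,2],[1,4,3,1],[1,0,4,1],[1,0,1,1],[3,2,2],[1,0,2,1],[1,4,0,1],[1,3,4,1],[1,0,1,1],[1,1,2,1],[1,2,0,1],[0,2,3,1],[6,3,4],[6,0,1],[6,0,1]]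

theorem sse6 : SSE ⟨2, toM 2 2 [[1,6],[5,1]]⟩ ⟨2, toM 2 2 [[1,30],[1,1]]⟩ :=
  run_spec ops6 _ _ _ _ (by decide +kernel)

end Pool.Agent.Q133.SS
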