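import Pool.Agent.Q133.SS.WEnds

set_option autoImplicit false

namespace Pool.Agent.Q133.SS

open Matrix

/-- ceiling of `a / X` -/
def cl (a X : ℤ) : ℤ := (a + X - 1) / X

theorem cl_lt {a X : ℤ} (hX : 0 < X) : X * cl a X ≤ a + X - 1 := by
  unfold cl
  have := Int.emod_add_mul_ediv (a + X - 1) X
  have := Int.emod_nonneg (a + X - 1) hX.ne'
  linarith

theorem cl_ge {a X : ℤ} (hX : 0 < X) : a ≤ X * cl a X := by
  unfold cl
  have := Int.emod_add_mul_ediv (a + X - 1) X
  have := Int.emod_lt_of_pos (a + X - 1) hX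
  linarith

theorem cl_le {a X n : ℤ} (hX : 0 < X) (h : a ≤ X * n) : cl a X ≤ n := by
  by_contra hn
  push Not at hn
  have h1 := cl_lt (a := a) hX
  have h2 : X * (n + 1) ≤ X * cl a X := mul_le_mul_of_nonneg_left hn hX.le
  linarith

theorem cl_nonneg {a X : ℤ} (hX : 0 < X) (ha : 0 ≤ a) : 0 ≤ cl a X := by
  unfold cl
  exact Int.ediv_nonneg (by linarith) hX.le

theorem cl_one (a : ℤ) : cl a 1 = a := by
  unfold cl
  simp

theorem InK.up {X a b : ℤ} (h : InK X a b) (ha : 0 ≤ a) : InK (X + 1) a b := by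
  obtain ⟨h1, h2⟩ := h
  constructor <;> linarith

theorem AplusChain {h c r g s : ℤ} (hc : 0 < c) (hs0 : 0 ≤ s) (hsg : s ≤ g)
    (hs2 : 2 * s ≤ g + c) (j : ℕ)
    (hcond : ∀ X : ℕ, 1 ≤ X → X < j →
      0 ≤ h - ((X : ℤ) + 1) * (2 * cl (g - s) X + c) ∧
      InK X (h - ((X : ℤ) + 1) * (2 * cl (g - s) X + c)) (r + ((X : ℤ) + 1) * (2 * s - g))) :
    ∀ X : ℕ, 1 ≤ X → X ≤ j → SZ (W h c r g X (cl (g - s) X) s) (W h c r g 1 (g - s) s) := by
  intro X hX
  induction X, hX using Nat.le_induction with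
  | base =>
    intro _
    rw [Nat.cast_one, cl_one]
    exact SZ.refl _
  | succ X hX ih =>
    intro hj
    obtain ⟨hz0, hZ⟩ := hcond X hX (by omega)
    have hXp : (0 : ℤ) < X := by exact_mod_cast hX
    have hXp1 : (0 : ℤ) < (X : ℤ) + 1 := by linarith
    have hn0 : 0 ≤ cl (g - s) X := cl_nonneg hXp (by linarith)
    have hn0g := cl_ge (a := g - s) hXp
    have hn1 : 0 ≤ cl (g - s) ((X : ℤ) + 1) := cl_nonneg hXp1 (by linarith)
    have hn1g := cl_ge (a := g - s) hXp1
    have hle : cl (g - s) ((X : ℤ) + 1) ≤ cl (g - s) X := cl_le hXp1 (by linarith)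
    have hXc : c ≤ (X : ℤ) * c := by nlinarith
    have key : SZ (W h c r g ((X : ℤ) + 1) (cl (g - s) ((X : ℤ) + 1)) s)
        (W h c r g ((X : ℤ) + 1) (cl (g - s) X) s) := by
      have := stepN (h := h) (c := c) (r := r) (g := g) (X := (X : ℤ) + 1)
        (n := cl (g - s) ((X : ℤ) + 1)) (s := s)
        (cl (g - s) X - cl (g - s) ((X : ℤ) + 1)) 0 hXp1.le hn1 hc.le (by linarith)
        (by
          have e : cl (g - s) ((X : ℤ) + 1) + (cl (g - s) X - cl (g - s) ((X : ℤ) + 1)) =
            cl (g - s) X := by ring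
          rw [e]; exact hz0)
        (by
          constructor
          · linarith
          · have : 0 ≤ ((X : ℤ) + 1) * (cl (g - s) ((X : ℤ) + 1) + c) := by positivity
            linarith)
        (by
          constructor
          · have : 0 ≤ ((X : ℤ) + 1) * cl (g - s) ((X : ℤ) + 1) := by positivity
            linarith
          · linarith)
        (by
          have e : cl (g - s) ((X : ℤ) + 1) + (cl (g - s) X - cl (g - s) ((X : ℤ) + 1)) =
            cl (g - s) X := by ring
          rw [e, sub_zero]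
          exact hZ.up hz0)
        (by
          have : 0 ≤ ((X : ℤ) + 1) * (cl (g - s) X - cl (g - s) ((X : ℤ) + 1)) :=
            mul_nonneg hXp1.le (by linarith)
          constructor <;> linarith)
      have e : cl (g - s) ((X : ℤ) + 1) + (cl (g - s) X - cl (g - s) ((X : ℤ) + 1)) =
            cl (g - s) X := by ring
      rw [e, sub_zero] at this
      exact this
    have key2 : SZ (W h c r g X (cl (g - s) X) s) (W h c r g ((X : ℤ) + 1) (cl (g - s) X) s) := by
      refine stepX hXp.le hn0 hc.le hz0 ?_ ?_ hZ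
      · constructor
        · linarith
        · have : 0 ≤ (X : ℤ) * (cl (g - s) X + c) := by positivity
          linarith
      · constructor
        · have : 0 ≤ (X : ℤ) * cl (g - s) X := by positivity
          linarith
        · linarith
    rw [Nat.cast_add, Nat.cast_one]
    exact key.trans (key2.symm.trans (ih (by omega)))

theorem Aplus {h c r g : ℤ} (s : ℤ) (j : ℕ) (hj : 1 ≤ j) (hc : 0 < c) (hg : 0 < g)
    (hs0 : 0 ≤ s) (hsg : s ≤ g) (hs2 : 2 * s ≤ g + c)
    (hjg : g ≤ j * c) (hG1 : 0 ≤ h - j * c) (hG3 : 0 ≤ r + j * (h + g) - (j : ℤ) ^ 2 * c)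
    (hcond : ∀ X : ℕ, 1 ≤ X → X < j →
      0 ≤ h - ((X : ℤ) + 1) * (2 * cl (g - s) X + c) ∧
      InK X (h - ((X : ℤ) + 1) * (2 * cl (g - s) X + c)) (r + ((X : ℤ) + 1) * (2 * s - g)))
    (hz0j : 0 ≤ h - (j : ℤ) * (2 * cl (g - s) j + c))
    (hZj : InK j (h - (j : ℤ) * (2 * cl (g - s) j + c)) (r + (j : ℤ) * (2 * s - g)))
    (hz0 : 0 ≤ h - 2 * g - c) (C0 : InK 1 (h - 2 * g - c) (r - g)) :
    SZ (C2 (h - j * c) c (r + j * (h + g) - (j : ℤ) ^ 2 * c) (j * c - g)) (W h c r g 1 g 0) := by
  have hjp : (0 : ℤ) < j := by exact_mod_cast hj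
  have hn0 : 0 ≤ cl (g - s) j := cl_nonneg hjp (by linarith)
  have hng := cl_ge (a := g - s) hjp
  have hn2 : 0 ≤ (j : ℤ) * cl (g - s) j := by positivity
  have a1 := startG (h := h) (c := c) (r := r) (g := g) (j := j) hjp.le hc.le hG1 (by linarith)
    hG3 hg.le (by
      obtain ⟨-, h2⟩ := hZj
      nlinarith)
  have a2 := stepN (h := h) (c := c) (r := r) (g := g) (X := j) (n := 0) (s := g)
    (cl (g - s) j) (g - s) hjp.le le_rfl hc.le hn0 (by rw [zero_add]; exact hz0j)
    (by constructor <;> linarith) (by constructor <;> linarith)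
    (by
      have e : g - (g - s) = s := by ring
      rw [zero_add, e]; exact hZj)
    (by constructor <;> linarith)
  have e : g - (g - s) = s := by ring
  rw [zero_add, e] at a2
  have a3 := AplusChain hc hs0 hsg hs2 j hcond j hj le_rfl
  have a4 := stepN (h := h) (c := c) (r := r) (g := g) (X := 1) (n := g - s) (s := s)
    s s (by norm_num) (by linarith) hc.le hs0 (by linarith)
    (by constructor <;> linarith) (by constructor <;> linarith)
    (by
      obtain ⟨h1, h2⟩ := C0
      constructor <;> linarith)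
    (by constructor <;> linarith)
  have e2 : g - s + s = g := by ring
  rw [e2, sub_self] at a4
  exact a1.trans (a2.trans (a3.trans a4))

/-- the other canonical path, `s = g` -/
def nm (g c X : ℤ) : ℤ := max 0 (cl g X - c)

theorem nm_nonneg (g c X : ℤ) : 0 ≤ nm g c X := le_max_left _ _

theorem AminusChain {h c r g : ℤ} (hc : 0 < c) (hg : 0 < g) (j : ℕ)
    (hcond : ∀ X : ℕ, 1 ≤ X → X < j →
      0 ≤ h - ((X : ℤ) + 1) * (2 * nm g c X + c) ∧
      InK X (h - ((X : ℤ) + 1) * (2 * nm g c X + c)) (r + ((X : ℤ) + 1) * g)) :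
    ∀ X : ℕ, 1 ≤ X → X ≤ j → SZ (W h c r g X (nm g c X) g) (W h c r g 1 (nm g c 1) g) := by
  intro X hX
  induction X, hX using Nat.le_induction with
  | base =>
    intro _
    rw [Nat.cast_one]
    exact SZ.refl _
  | succ X hX ih =>
    intro hj
    obtain ⟨hz0, hZ⟩ := hcond X hX (by omega)
    have hXp : (0 : ℤ) < X := by exact_mod_cast hX
    have hXp1 : (0 : ℤ) < (X : ℤ) + 1 := by linarith
    have hn0 := nm_nonneg g c X
    have hn1 := nm_nonneg g c ((X : ℤ) + 1)
    have h0c : cl g X ≤ nm g c X + c := by unfold nm; have := le_max_right 0 (cl g X - c); linarith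
    have h1c : cl g ((X : ℤ) + 1) ≤ nm g c ((X : ℤ) + 1) + c := by
      unfold nm; have := le_max_right 0 (cl g ((X : ℤ) + 1) - c); linarith
    have hg0 : g ≤ X * (nm g c X + c) :=
      (cl_ge (a := g) hXp).trans (mul_le_mul_of_nonneg_left h0c hXp.le)
    have hg1 : g ≤ ((X : ℤ) + 1) * (nm g c ((X : ℤ) + 1) + c) :=
      (cl_ge (a := g) hXp1).trans (mul_le_mul_of_nonneg_left h1c hXp1.le)
    have hle : nm g c ((X : ℤ) + 1) ≤ nm g c X := by
      have hcl : cl g ((X : ℤ) + 1) ≤ cl g X := by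
        apply cl_le hXp1
        have := cl_ge (a := g) hXp
        have := cl_nonneg hXp hg.le
        linarith
      unfold nm
      exact max_le_max le_rfl (by linarith)
    have key : SZ (W h c r g ((X : ℤ) + 1) (nm g c ((X : ℤ) + 1)) g)
        (W h c r g ((X : ℤ) + 1) (nm g c X) g) := by
      have e : nm g c ((X : ℤ) + 1) + (nm g c X - nm g c ((X : ℤ) + 1)) = nm g c X := by ring
      have e2 : 2 * g - g = g := by ring
      have := stepN (h := h) (c := c) (r := r) (g := g) (X := (X : ℤ) + 1)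
        (n := nm g c ((X : ℤ) + 1)) (s := g)
        (nm g c X - nm g c ((X : ℤ) + 1)) 0 hXp1.le hn1 hc.le (by linarith)
        (by rw [e]; exact hz0)
        (by constructor <;> linarith)
        (by
          have : 0 ≤ ((X : ℤ) + 1) * nm g c ((X : ℤ) + 1) := by positivity
          constructor <;> linarith)
        (by
          rw [e, sub_zero, e2]
          exact hZ.up hz0)
        (by
          have : 0 ≤ ((X : ℤ) + 1) * (nm g c X - nm g c ((X : ℤ) + 1)) :=
            mul_nonneg hXp1.le (by linarith)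
          constructor <;> linarith)
      rw [e, sub_zero] at this
      exact this
    have key2 : SZ (W h c r g X (nm g c X) g) (W h c r g ((X : ℤ) + 1) (nm g c X) g) := by
      have e2 : 2 * g - g = g := by ring
      refine stepX hXp.le hn0 hc.le hz0 ?_ ?_ (by rw [e2]; exact hZ)
      · constructor <;> linarith
      · have : 0 ≤ (X : ℤ) * nm g c X := by positivity
        constructor <;> linarith
    rw [Nat.cast_add, Nat.cast_one]
    exact key.trans (key2.symm.trans (ih (by omega)))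

theorem Aminus {h c r g : ℤ} (j : ℕ) (hj : 1 ≤ j) (hc : 0 < c) (hg : 0 < g) (hcg : c ≤ g)
    (hjg : g ≤ j * c) (hG1 : 0 ≤ h - j * c) (hG3 : 0 ≤ r + j * (h + g) - (j : ℤ) ^ 2 * c)
    (hcond : ∀ X : ℕ, 1 ≤ X → X < j →
      0 ≤ h - ((X : ℤ) + 1) * (2 * nm g c X + c) ∧
      InK X (h - ((X : ℤ) + 1) * (2 * nm g c X + c)) (r + ((X : ℤ) + 1) * g))
    (h4 : r + j * g ≤ j * (h - j * c)) :
    SZ (C2 (h - j * c) c (r + j * (h + g) - (j : ℤ) ^ 2 * c) (j * c - g))
      (W h c r g 1 (g - c) g) := by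
  have hjp : (0 : ℤ) < j := by exact_mod_cast hj
  have a1 := startG (h := h) (c := c) (r := r) (g := g) (j := j) hjp.le hc.le hG1 (by linarith)
    hG3 hg.le h4
  have a2 := AminusChain hc hg j hcond j hj le_rfl
  have e1 : nm g c j = 0 := by
    unfold nm
    exact max_eq_left (by have := cl_le hjp hjg; linarith)
  have e2 : nm g c 1 = g - c := by
    unfold nm
    rw [cl_one]
    exact max_eq_right (by linarith)
  rw [e1, e2] at a2
  exact a1.trans a2

end Pool.Agent.Q133.SS
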