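import Pool.Agent.Q133.SS.WSteps

set_option autoImplicit false

namespace Pool.Agent.Q133.SS

open Matrix

/-- `k = 1`, `r ≥ g` -/
theorem endOne {h c r g : ℤ} (hc : 0 ≤ c) (hg : 0 ≤ g) (hr : g ≤ r) (h1 : r + g + c ≤ h) :
    SZ (W h c r g 1 g 0) (C2 (h - r) (h - r + g + c) r (r - g)) := by
  have e2 : EZ (W h c r g 1 g 0)
      ⟨2, Mt ![![1, 0], ![1, 1]] ![![h - r, g + c], ![r, -g]]⟩ := by
    refine tmap _ _ _ _ ![![g + c, 0, h - 2 * g - c - (r - g)], ![0, g, r - g]] ?_ ?_ ?_ ?_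
    · intro a b; fin_cases a <;> fin_cases b <;> simp <;> linarith
    · intro a b; fin_cases a <;> fin_cases b <;> simp [rW, Fin.sum_univ_succ] <;> ring1
    · intro a b; fin_cases a <;> fin_cases b <;> simp [fW, Fin.sum_univ_succ] <;> ring1
    · intro a b; fin_cases a <;> fin_cases b <;> simp [fW]
  have e3 : (⟨2, Mt ![![1, 0], ![1, 1]] ![![h - r, g + c], ![r, -g]]⟩ : SqZ) =
      C2 (h - r) (h - r + g + c) r (r - g) := by
    unfold C2
    congr 1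
    ext a b
    fin_cases a <;> fin_cases b <;> simp [Mt] <;> ring1
  rw [← e3]
  exact e2.sz

theorem tW (h c r g X n s : ℤ) :
    tZ (W h c r g X n s) = ⟨3, Mt (fW X) (rW h c r g X n s)⟩ := Mt_tr _ _

theorem bridgeB {h c r g : ℤ} (hc : 0 ≤ c) (hg : 0 ≤ g) (hr : 0 ≤ r)
    (h1 : r - g ≤ h - 4 * g - c) (h2 : g - r ≤ h - 4 * g - c) (h3 : 3 * g + c + r ≤ h) :
    SZ (W h c r g 1 g 0) (tZ (W h r c g 1 g 0)) := by
  have a1 : SZ (W h c r g 1 g 0) (W h c r g 1 (g + g) (0 - 0)) := by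
    refine stepN g 0 (by norm_num) hg hc hg (by linarith) ⟨?_, ?_⟩ ⟨?_, ?_⟩ ⟨?_, ?_⟩ ⟨?_, ?_⟩ <;>
      linarith
  have a2 : SZ (W h c r g 1 g g) (W h c r g 1 (g + g) (g - g)) := by
    refine stepN g g (by norm_num) hg hc hg (by linarith) ⟨?_, ?_⟩ ⟨?_, ?_⟩ ⟨?_, ?_⟩ ⟨?_, ?_⟩ <;>
      linarith
  have a3 : EZ (W h c r g 1 g g) (tZ (W h r c g 1 g 0)) := by
    rw [tW]
    refine tmap _ _ _ _ ![![0, 0, r + g], ![g, 0, 0], ![c, g, h - 3 * g - c - r]] ?_ ?_ ?_ ?_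
    · intro a b; fin_cases a <;> fin_cases b <;> simp <;> linarith
    · intro a b
      fin_cases a <;> fin_cases b <;> simp [rW, fW, Fin.sum_univ_succ] <;> ring1
    · intro a b; fin_cases a <;> fin_cases b <;> simp [fW, rW, Fin.sum_univ_succ] <;> ring1
    · intro a b; fin_cases a <;> fin_cases b <;> simp [fW]
  have e : (g - g : ℤ) = 0 - 0 := by ring
  rw [e] at a2
  exact a1.trans (a2.symm.trans a3.sz)

theorem bridgeB' {h c r g : ℤ} (hc : 0 ≤ c) (hg : 0 ≤ g) (hr : 0 ≤ r)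
    (h3 : 3 * g + c + r ≤ h) :
    SZ (W h c (-r) g 1 g 0) (tZ (W h r (-c) g 1 g 0)) := by
  have e0 : tZ (W h r (-c) g 1 g 0) =
      ⟨3, Mt ![![1, -1], ![1, 1], ![1, 0]] ![![g + r, 0], ![g, -g], ![h - 2 * g - r, c + g]]⟩ := by
    rw [tW]
    congr 1
    ext a b
    fin_cases a <;> fin_cases b <;> simp [Mt, rW, fW] <;> ring1
  rw [e0]
  refine EZ.sz (tmap _ _ _ _ ![![0, 0, r + g], ![0, g, 0], ![g + c, 0, h - 3 * g - c - r]]
    ?_ ?_ ?_ ?_)
  · intro a b; fin_cases a <;> fin_cases b <;> simp <;> linarith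
  · intro a b
    fin_cases a <;> fin_cases b <;> simp [rW, Fin.sum_univ_succ] <;> ring1
  · intro a b; fin_cases a <;> fin_cases b <;> simp [fW, Fin.sum_univ_succ] <;> ring1
  · intro a b; fin_cases a <;> fin_cases b <;> simp [fW]

theorem endRec {h c r g : ℤ} (hc : 0 ≤ c) (hg : 0 ≤ g) (hcg : c ≤ g) (hr : g ≤ r)
    (h1 : r + g - c ≤ h) :
    SZ (W h c (-r) g 1 (g - c) g) (C2 (r - g) r (h - r - c + g) (h - r)) := by
  have e2 : EZ (W h c (-r) g 1 (g - c) g)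
      ⟨2, Mt ![![1, -1], ![1, 0]] ![![r, g], ![h - r, c - g]]⟩ := by
    refine tmap _ _ _ _ ![![g, 0, r - g], ![0, g - c, h - g + c - r]] ?_ ?_ ?_ ?_
    · intro a b; fin_cases a <;> fin_cases b <;> simp <;> linarith
    · intro a b; fin_cases a <;> fin_cases b <;> simp [rW, Fin.sum_univ_succ] <;> ring1
    · intro a b; fin_cases a <;> fin_cases b <;> simp [fW, Fin.sum_univ_succ] <;> ring1
    · intro a b; fin_cases a <;> fin_cases b <;> simp [fW]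
  have e3 : (⟨2, Mt ![![1, -1], ![1, 0]] ![![r, g], ![h - r, c - g]]⟩ : SqZ) =
      C2 (r - g) r (h - r - c + g) (h - r) := by
    unfold C2
    congr 1
    ext a b
    fin_cases a <;> fin_cases b <;> simp [Mt] <;> ring1
  rw [← e3]
  exact e2.sz

end Pool.Agent.Q133.SS
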