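import Pool.Agent.Q133.SS.Z

set_option autoImplicit false

namespace Pool.Agent.Q133.SS

open Matrix

/-- the vector `(a, b)` lies in the cone `|b| ≤ X a` -/
def InK (X a b : ℤ) : Prop := -(X * a) ≤ b ∧ b ≤ X * a

def rW (h c r g X n s : ℤ) : Fin 3 → Fin 2 → ℤ :=
  ![![n + c, -s], ![n, g - s], ![h - X * (2 * n + c), r + X * (2 * s - g)]]

def fW (X : ℤ) : Fin 3 → Fin 2 → ℤ := ![![X, 1], ![X, -1], ![1, 0]]

def W (h c r g X n s : ℤ) : SqZ := ⟨3, Mt (rW h c r g X n s) (fW X)⟩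

theorem InK.nonneg {X a b : ℤ} (h : InK X a b) (hX : 0 ≤ X) : 0 ≤ X * a := by
  have := h.1; have := h.2; omega

theorem stepN {h c r g X n s : ℤ} (k i : ℤ) (hX : 0 ≤ X)
    (hn0 : 0 ≤ n) (hc0 : 0 ≤ c) (hk0 : 0 ≤ k) (hz0 : 0 ≤ h - X * (2 * (n + k) + c))
    (hP : InK X (n + c) (-s)) (hN : InK X n (g - s))
    (hZ : InK X (h - X * (2 * (n + k) + c)) (r + X * (2 * (s - i) - g)))
    (hk : InK X k i) : SZ (W h c r g X n s) (W h c r g X (n + k) (s - i)) := by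
  obtain ⟨hP1, hP2⟩ := hP
  obtain ⟨hN1, hN2⟩ := hN
  obtain ⟨hZ1, hZ2⟩ := hZ
  obtain ⟨hk1, hk2⟩ := hk
  have h1 : EZ (W h c r g X n s)
      ⟨4, Mt ![![n + c, -s], ![n, g - s],
        ![h - X * (2 * (n + k) + c), r + X * (2 * (s - i) - g)], ![k, i]]
        ![![X, 1], ![X, -1], ![1, 0], ![2 * X, 0]]⟩ := by
    refine tmap _ _ _ _ ![![1, 0, 0], ![0, 1, 0], ![0, 0, 1], ![0, 0, 2 * X]] ?_ ?_ ?_ ?_
    · intro a b; fin_cases a <;> fin_cases b <;> simp <;> omega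
    · intro a b; fin_cases a <;> fin_cases b <;> simp [rW, Fin.sum_univ_succ] <;> (first | ring1 | (left; ring1))
    · intro a b; fin_cases a <;> fin_cases b <;> simp [fW, Fin.sum_univ_succ] <;> ring1
    · intro a b; fin_cases a <;> fin_cases b <;> simp [fW] <;> linarith
  have h2 : EZ (W h c r g X (n + k) (s - i))
      ⟨4, Mt ![![n + c, -s], ![n, g - s],
        ![h - X * (2 * (n + k) + c), r + X * (2 * (s - i) - g)], ![k, i]]
        ![![X, 1], ![X, -1], ![1, 0], ![2 * X, 0]]⟩ := by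
    refine tmap _ _ _ _ ![![1, 0, 0], ![0, 1, 0], ![0, 0, 1], ![1, 1, 0]] ?_ ?_ ?_ ?_
    · intro a b; fin_cases a <;> fin_cases b <;> simp
    · intro a b; fin_cases a <;> fin_cases b <;> simp [rW, Fin.sum_univ_succ] <;> (first | ring1 | (left; ring1))
    · intro a b; fin_cases a <;> fin_cases b <;> simp [fW, Fin.sum_univ_succ] <;> ring1
    · intro a b; fin_cases a <;> fin_cases b <;> simp [fW] <;> linarith
  exact h1.sz.trans h2.sz.symm

theorem stepX {h c r g X n s : ℤ} (hX : 0 ≤ X) (hn0 : 0 ≤ n) (hc0 : 0 ≤ c)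
    (hz0 : 0 ≤ h - (X + 1) * (2 * n + c))
    (hP : InK X (n + c) (-s)) (hN : InK X n (g - s))
    (hZ : InK X (h - (X + 1) * (2 * n + c)) (r + (X + 1) * (2 * s - g))) :
    SZ (W h c r g X n s) (W h c r g (X + 1) n s) := by
  obtain ⟨hP1, hP2⟩ := hP
  obtain ⟨hN1, hN2⟩ := hN
  obtain ⟨hZ1, hZ2⟩ := hZ
  refine EZ.sz (tmap _ _ _ _ ![![1, 0, 1], ![0, 1, 1], ![0, 0, 1]] ?_ ?_ ?_ ?_)
  · intro a b; fin_cases a <;> fin_cases b <;> simp
  · intro a b; fin_cases a <;> fin_cases b <;> simp [rW, Fin.sum_univ_succ] <;> (first | ring1 | (left; ring1))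
  · intro a b; fin_cases a <;> fin_cases b <;> simp [fW, Fin.sum_univ_succ]
  · intro a b; fin_cases a <;> fin_cases b <;> simp [fW, rW] <;> linarith

/-- the two by two matrix `A` in the basis `(e1 - j e2, e2)` -/
def C2 (p q s u : ℤ) : SqZ := ⟨2, !![p, q; s, u]⟩

theorem startG {h c r g j : ℤ} (hj : 0 ≤ j) (hc : 0 ≤ c)
    (h1 : 0 ≤ h - j * c) (h2 : 0 ≤ j * c - g) (h3 : 0 ≤ r + j * (h + g) - j ^ 2 * c)
    (hg : 0 ≤ g)
    (h4 : r + j * g ≤ j * (h - j * c)) :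
    SZ (C2 (h - j * c) c (r + j * (h + g) - j ^ 2 * c) (j * c - g)) (W h c r g j 0 g) := by
  have e1 : EZ (W h c r g j 0 g) ⟨2, Mt ![![c, -g], ![h - j * c, r + j * g]] ![![j, 1], ![1, 0]]⟩ := by
    refine tmap _ _ _ _ ![![1, 0, 0], ![0, 0, 1]] ?_ ?_ ?_ ?_
    · intro a b; fin_cases a <;> fin_cases b <;> simp
    · intro a b; fin_cases a <;> fin_cases b <;> simp [rW, Fin.sum_univ_succ] <;> (first | ring1 | (left; ring1))
    · intro a b; fin_cases a <;> fin_cases b <;> simp [fW, Fin.sum_univ_succ]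
    · intro a b; fin_cases a <;> fin_cases b <;> simp [fW] <;> nlinarith
  have e2 : EZ ⟨2, Mt ![![c, -g], ![h - j * c, r + j * g]] ![![j, 1], ![1, 0]]⟩
      ⟨2, Mt ![![1, -j], ![0, 1]] ![![h, c], ![r + j * h, j * c - g]]⟩ := by
    refine tmap _ _ _ _ ![![c, h - j * c], ![j * c - g, r + j * g + j * (h - j * c)]] ?_ ?_ ?_ ?_
    · intro a b; fin_cases a <;> fin_cases b <;> simp <;> nlinarith
    · intro a b; fin_cases a <;> fin_cases b <;> simp [Fin.sum_univ_succ] <;> ring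
    · intro a b; fin_cases a <;> fin_cases b <;> simp [Fin.sum_univ_succ] <;> ring
    · intro a b; fin_cases a <;> fin_cases b <;> simp
  have e3 : (⟨2, Mt ![![1, -j], ![0, 1]] ![![h, c], ![r + j * h, j * c - g]]⟩ : SqZ) =
      C2 (h - j * c) c (r + j * (h + g) - j ^ 2 * c) (j * c - g) := by
    unfold C2
    congr 1
    ext a b
    fin_cases a <;> fin_cases b <;> simp [Mt] <;> ring
  rw [← e3]
  exact (e1.sz.trans e2.sz).symm

end Pool.Agent.Q133.SS
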