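import Pool.Agent.Q133.SS.Basic

set_option autoImplicit false

namespace Pool.Agent.Q133.SS

open Matrix

/-! Integer matrices with nonnegativity recorded separately. -/

abbrev SqZ := Σ n : ℕ, Matrix (Fin n) (Fin n) ℤ

def NN {n m : ℕ} (M : Matrix (Fin n) (Fin m) ℤ) : Prop := ∀ i j, 0 ≤ M i j

def EZ (X Y : SqZ) : Prop :=
  ∃ R : Matrix (Fin X.1) (Fin Y.1) ℤ, ∃ S : Matrix (Fin Y.1) (Fin X.1) ℤ,
    NN R ∧ NN S ∧ X.2 = R * S ∧ Y.2 = S * R

def SZ (X Y : SqZ) : Prop := Relation.ReflTransGen EZ X Y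

theorem EZ.symm {X Y : SqZ} (h : EZ X Y) : EZ Y X := by
  obtain ⟨R, S, h1, h2, h3, h4⟩ := h
  exact ⟨S, R, h2, h1, h4, h3⟩

theorem SZ.refl (X : SqZ) : SZ X X := Relation.ReflTransGen.refl

theorem EZ.sz {X Y : SqZ} (h : EZ X Y) : SZ X Y := Relation.ReflTransGen.single h

theorem SZ.trans {X Y Z : SqZ} (h : SZ X Y) (h' : SZ Y Z) : SZ X Z :=
  Relation.ReflTransGen.trans h h'

theorem SZ.symm {X Y : SqZ} (h : SZ X Y) : SZ Y X := by
  unfold SZ at *
  induction h with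
  | refl => exact Relation.ReflTransGen.refl
  | tail _ h ih => exact Relation.ReflTransGen.head h.symm ih

/-- transpose -/
def tZ (X : SqZ) : SqZ := ⟨X.1, X.2ᵀ⟩

theorem EZ.tr {X Y : SqZ} (h : EZ X Y) : EZ (tZ X) (tZ Y) := by
  obtain ⟨R, S, h1, h2, h3, h4⟩ := h
  refine ⟨Sᵀ, Rᵀ, fun i j => h2 j i, fun i j => h1 j i, ?_, ?_⟩
  · show X.2ᵀ = _
    rw [h3, transpose_mul]; rfl
  · show Y.2ᵀ = _
    rw [h4, transpose_mul]; rfl

theorem SZ.tr {X Y : SqZ} (h : SZ X Y) : SZ (tZ X) (tZ Y) := by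
  unfold SZ at *
  induction h with
  | refl => exact Relation.ReflTransGen.refl
  | tail _ h ih => exact Relation.ReflTransGen.tail ih h.tr

theorem tZ_tZ (X : SqZ) : tZ (tZ X) = X := by
  simp only [tZ, transpose_transpose]

/-- conversion to natural numbers -/
def toN (X : SqZ) : SqMat := ⟨X.1, X.2.map Int.toNat⟩

theorem map_toNat_mul {n k m : ℕ} (R : Matrix (Fin n) (Fin k) ℤ) (S : Matrix (Fin k) (Fin m) ℤ)
    (h1 : NN R) (h2 : NN S) : (R * S).map Int.toNat = R.map Int.toNat * S.map Int.toNat := by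
  ext i j
  simp only [Matrix.map_apply, Matrix.mul_apply]
  zify
  rw [Int.toNat_of_nonneg (Finset.sum_nonneg fun k _ => mul_nonneg (h1 i k) (h2 k j))]
  refine Finset.sum_congr rfl fun k _ => ?_
  rw [Int.toNat_of_nonneg (h1 i k), Int.toNat_of_nonneg (h2 k j)]

theorem EZ.toN {X Y : SqZ} (h : EZ X Y) : Elem (toN X) (toN Y) := by
  obtain ⟨R, S, h1, h2, h3, h4⟩ := h
  refine ⟨R.map Int.toNat, S.map Int.toNat, ?_, ?_⟩
  · show X.2.map Int.toNat = _
    rw [h3, map_toNat_mul R S h1 h2]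
    rfl
  · show Y.2.map Int.toNat = _
    rw [h4, map_toNat_mul S R h2 h1]
    rfl

theorem SZ.toN {X Y : SqZ} (h : SZ X Y) : SSE (toN X) (toN Y) := by
  unfold SZ at h
  induction h with
  | refl => exact SSE.refl _
  | tail _ h ih => exact SSE.trans ih (Relation.TransGen.single h.toN)

/-- matrix of pairings of vectors `r j` with functionals `f i` -/
def Mt {n : ℕ} (r f : Fin n → Fin 2 → ℤ) : Matrix (Fin n) (Fin n) ℤ :=
  fun i j => f i 0 * r j 0 + f i 1 * r j 1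

theorem tmap {n m : ℕ} (r f : Fin n → Fin 2 → ℤ) (r' f' : Fin m → Fin 2 → ℤ)
    (T : Fin m → Fin n → ℤ) (hT : ∀ k i, 0 ≤ T k i)
    (hr : ∀ i c, r i c = ∑ k, T k i * r' k c)
    (hf : ∀ k c, f' k c = ∑ i, T k i * f i c)
    (hV : ∀ i k, 0 ≤ f i 0 * r' k 0 + f i 1 * r' k 1) :
    EZ ⟨n, Mt r f⟩ ⟨m, Mt r' f'⟩ := by
  refine ⟨fun i k => f i 0 * r' k 0 + f i 1 * r' k 1, T, hV, hT, ?_, ?_⟩
  · ext i j
    simp only [Mt, Matrix.mul_apply, hr j]
    rw [Finset.mul_sum, Finset.mul_sum, ← Finset.sum_add_distrib]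
    refine Finset.sum_congr rfl fun k _ => ?_
    ring
  · ext k l
    simp only [Mt, Matrix.mul_apply, hf k]
    rw [Finset.sum_mul, Finset.sum_mul, ← Finset.sum_add_distrib]
    refine Finset.sum_congr rfl fun i _ => ?_
    ring

theorem Mt_tr {n : ℕ} (r f : Fin n → Fin 2 → ℤ) : tZ ⟨n, Mt r f⟩ = ⟨n, Mt f r⟩ := by
  simp only [tZ]
  congr 1
  ext i j
  simp only [transpose_apply, Mt]
  ring

end Pool.Agent.Q133.SS
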